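import Pool.Agent.Helper32_OMP.StmtB
import Pool.Agent.Helper30_Simp.Stmts
import Pool.Agent.Helper42_Simp.ERoot

/-!
# Chains and the Bernstein-Sato polynomial
-/

set_option autoImplicit false

namespace Pool.Agent.Helper32_OMP

open MvPolynomial Pool.Agent.Helper6_Mono

/-- A module `B` with operators `act p`, `p` a polynomial, and `d i`, satisfying the Leibniz rule,
with elements `psi n` which behave like `f ^ (s - n)`; if a subspace `N` is stable under the
variables and the `d i` and contains `f psi 0`, then it contains `b_f(s) psi 0`. -/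
theorem bfun_mem {σ : Type} [Finite σ] {B : Type} [AddCommGroup B] [Module ℂ B]
    (f : MvPolynomial σ ℂ) (s : ℂ) (act : MvPolynomial σ ℂ →ₐ[ℂ] Module.End ℂ B)
    (d : σ → Module.End ℂ B)
    (leibX : ∀ i j b, d i (act (X j) b) = act (pderiv i (X j)) b + act (X j) (d i b))
    (psi : ℕ → B) (mul_psi : ∀ n, act f (psi (n + 1)) = psi n)
    (d_psi : ∀ i, ∀ n : ℕ, d i (psi n) = (s - (n : ℂ)) • act (pderiv i f) (psi (n + 1)))
    (N : Submodule ℂ B) (hact : ∀ i, ∀ b ∈ N, act (X i) b ∈ N) (hd : ∀ i, ∀ b ∈ N, d i b ∈ N)
    (h0 : act f (psi 0) ∈ N) : ((bfun f).eval s) • psi 0 ∈ N := by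
  let I : Ideal (Polynomial ℂ) :=
    { carrier := {b | (b.eval s) • psi 0 ∈ N}
      zero_mem' := by
        show ((0 : Polynomial ℂ).eval s) • psi 0 ∈ N
        rw [Polynomial.eval_zero, zero_smul]
        exact N.zero_mem
      add_mem' := by
        intro a b ha hb
        show ((a + b).eval s) • psi 0 ∈ N
        rw [Polynomial.eval_add, add_smul]
        exact N.add_mem ha hb
      smul_mem' := by
        intro c b hb
        show ((c * b).eval s) • psi 0 ∈ N
        rw [Polynomial.eval_mul, mul_smul]
        exact N.smul_mem _ hb }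
  have hI : Ideal.span {b | LocalBS f b} ≤ I := by
    rw [Ideal.span_le]
    intro b hb
    have h := Helper30_Simp.H42.eroot σ ℂ B f s act d leibX psi mul_psi d_psi N hact hd h0 b hb
    have h2 : (Polynomial.aeval s) b = b.eval s := by
      rw [Polynomial.aeval_def, Polynomial.eval₂_eq_eval_map]
      congr 1
      exact Polynomial.map_id
    rw [h2] at h
    exact h
  have h3 : Submodule.IsPrincipal.generator (Ideal.span {b | LocalBS f b}) ∈ I :=
    hI (Submodule.IsPrincipal.generator_mem (Ideal.span {b | LocalBS f b}))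
  have h4 : bfun f ∈ I := by
    rw [bfun, normalize_apply]
    exact I.mul_mem_right _ h3
  exact h4

end Pool.Agent.Helper32_OMP
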