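import Pool.Agent.Helper32_OMP.Defs
import Mathlib.RingTheory.Regular.RegularSequence

/-!
# Module statements, part 2: the Bernstein-Sato polynomial
-/

set_option autoImplicit false
set_option linter.unusedVariables false
set_option linter.unusedSectionVars false

namespace Pool.Agent.Helper32_OMP

open MvPolynomial Finset Pool.Agent.Helper6_Mono

/-! ## Vector fields -/

/-- the divergence of the vector field `H` -/
noncomputable def dv {σ : Type} [Fintype σ] (H : σ → MvPolynomial σ ℂ) : MvPolynomial σ ℂ :=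
  ∑ l, pderiv l (H l)

/-- the derivative of `g` along the vector field `H` -/
noncomputable def ap {σ : Type} [Fintype σ] (H : σ → MvPolynomial σ ℂ) (g : MvPolynomial σ ℂ) :
    MvPolynomial σ ℂ := ∑ l, H l * pderiv l g

/-- The functions `g i` are homogeneous of positive degrees `d i`, and the hypersurfaces `g i = 0`
in projective space are smooth and cross each other normally. -/
structure IsOrd {σ ι : Type} (g : ι → MvPolynomial σ ℂ) (d : ι → ℕ) : Prop where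
  hom : ∀ i, (g i).IsHomogeneous (d i)
  pos : ∀ i, 0 < d i
  snc : ∀ z : σ → ℂ, z ≠ 0 → SncAt g z

/-! ## General statements -/

/-- MODULE ROOT1: the root `-1 / a` for a component of multiplicity `a` -/
def Root1Stmt : Prop :=
  ∀ (σ : Type) [Finite σ] (f q f' : MvPolynomial σ ℂ) (a : ℕ), 0 < a → Irreducible q →
    f = q ^ a * f' → ¬ q ∣ f' → (bfun f).eval (-(1 / (a : ℂ))) = 0

/-- a derivation applied to the coefficients of a power series -/
noncomputable def mapD {K : Type} [Field K] [Algebra ℂ K] (D : Derivation ℂ K K)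
    (P : PowerSeries K) : PowerSeries K := PowerSeries.mk fun n => D (PowerSeries.coeff n P)

/-- MODULE BPOW: complex powers of power series with constant term `1` -/
def BpowStmt : Prop :=
  ∀ (K : Type) [Field K] [Algebra ℂ K] (P : PowerSeries K), PowerSeries.constantCoeff P = 1 →
    ∃ pw : ℂ → PowerSeries K, (∀ c, PowerSeries.constantCoeff (pw c) = 1) ∧
      (∀ c, P * pw c = pw (c + 1)) ∧
      ∀ (D : Derivation ℂ K K) (c : ℂ), mapD D (pw c) = c • (mapD D P * pw (c - 1))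

/-- MODULE LEADH: if `-n / d` is not a root, `d` the multiplicity of `f` at `p`, then there is a
vector field `h = H / f_0 ^ N`, homogeneous of degree one, with
`div h + β h(f_0) / f_0 = 1`, `f_0` the initial form of `f` at `p` -/
def LeadhStmt : Prop :=
  ∀ (σ : Type) [Fintype σ] (f : MvPolynomial σ ℂ) (p : σ → ℂ) (d : ℕ) (f0 : MvPolynomial σ ℂ),
    0 < d → (∀ j < d, homogeneousComponent j (tra p f) = 0) →
    f0 = homogeneousComponent d (tra p f) → f0 ≠ 0 →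
    ∀ β : ℂ, β * d = -(Fintype.card σ : ℂ) → (bfun f).eval β ≠ 0 →
    ∃ (N : ℕ) (H : σ → MvPolynomial σ ℂ), (∀ l, (H l).IsHomogeneous (d * N + 1)) ∧
      f0 * dv H + C (β - N) * ap H f0 = f0 ^ (N + 1)

/-- MODULE ZERO: hypersurfaces are infinite -/
def ZeroStmt : Prop :=
  ∀ (σ : Type) [Fintype σ], 2 ≤ Fintype.card σ → ∀ q : MvPolynomial σ ℂ, (∀ c : ℂ, q ≠ C c) →
    ∀ T : Set (σ → ℂ), T.Finite → ∃ z, z ∉ T ∧ eval z q = 0

/-- MODULE COP: the components are relatively prime -/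
def CopStmt : Prop :=
  ∀ (σ ι : Type) [Fintype σ], 2 ≤ Fintype.card σ → ∀ (g : ι → MvPolynomial σ ℂ) (d : ι → ℕ),
    IsOrd g d → (∀ i, g i ≠ 0) ∧ ∀ i j, i ≠ j → IsRelPrime (g i) (g j)

/-! ## Determinantal relations -/

/-- MODULE ACYC: the acyclicity lemma -/
def AcycStmt : Prop :=
  ∀ (R : Type) [CommRing R] (rs : List R) (K : ℕ → Type) [∀ i, AddCommGroup (K i)]
    [∀ i, Module R (K i)] (d : ∀ i, K (i + 1) →ₗ[R] K i), (∀ i x, d i (d (i + 1) x) = 0) →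
    (∀ i, rs.length < i → Subsingleton (K i)) →
    (∀ i, RingTheory.Sequence.IsWeaklyRegular (K i) rs) →
    (∀ (i : ℕ) (x : K (i + 1)), d i x = 0 → ∀ r ∈ rs, ∃ (M : ℕ) (y : K (i + 2)),
      r ^ M • x = d (i + 1) y) →
    ∀ (i : ℕ) (x : K (i + 1)), d i x = 0 → ∃ y, d (i + 1) y = x

/-- MODULE REGX: the variables form a regular sequence -/
def RegxStmt : Prop :=
  ∀ (σ : Type) [Fintype σ], ∃ rs : List (MvPolynomial σ ℂ), rs.length = Fintype.card σ ∧
    (∀ r ∈ rs, ∃ l, r = X l) ∧ ∀ (κ : Type) [Finite κ],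
      RingTheory.Sequence.IsWeaklyRegular (κ → MvPolynomial σ ℂ) rs

/-- the matrix with first row `e (S k)` and the other rows `A i (S k)` -/
def brM {R : Type} {κ : Type} {r : ℕ} (A : Fin r → κ → R) (S : Fin (r + 1) → κ) (e : κ → R) :
    Matrix (Fin (r + 1)) (Fin (r + 1)) R :=
  Matrix.of (Fin.cons (fun k => e (S k)) (fun i k => A i (S k)))

/-- MODULE BRGH: the Buchsbaum-Rim complex `K`; the maximal minors act nilpotently on its
homology -/
def BrghStmt : Prop :=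
  ∀ (R : Type) [CommRing R] [Algebra ℚ R] (κ : Type) [Fintype κ] [DecidableEq κ] (r : ℕ)
    (A : Fin r → κ → R), 0 < r →
    ∃ (K : ℕ → Type) (_ : ∀ i, AddCommGroup (K i)) (_ : ∀ i, Module R (K i))
      (d : ∀ i, K (i + 1) →ₗ[R] K i) (e : (κ → R) →ₗ[R] K 1),
      (∀ i x, d i (d (i + 1) x) = 0) ∧
      (∀ i, 2 ≤ i → Fintype.card κ + 1 < i + r → Subsingleton (K i)) ∧
      (∀ i, ∃ (κ' : Type) (_ : Finite κ') (f : K i →ₗ[R] (κ' → R)) (g : (κ' → R) →ₗ[R] K i),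
        ∀ x, g (f x) = x) ∧
      (∀ (T : Fin r → κ) (i : ℕ) (x : K (i + 1)), d i x = 0 → ∃ (M : ℕ) (y : K (i + 2)),
        (Matrix.of fun i j => A i (T j)).det ^ M • x = d (i + 1) y) ∧
      (∀ v : κ → R, (∀ i, ∑ j, A i j * v j = 0) → d 0 (e v) = 0) ∧
      ∀ (v : κ → R) (y : K 2), e v = d 1 y →
        ∃ cf : (Fin (r + 1) → κ) → R, ∀ j, v j = ∑ S, cf S * (brM A S (Pi.single j 1)).det

/-- MODULE BRG: the kernel of a matrix whose maximal minors generate an ideal of large depth is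
generated by the Buchsbaum-Rim relations -/
def BrgStmt : Prop :=
  ∀ (R : Type) [CommRing R] [Algebra ℚ R] (rs : List R), 0 < rs.length →
    (∀ (κ : Type) [Finite κ], RingTheory.Sequence.IsWeaklyRegular (κ → R) rs) →
    ∀ (κ : Type) [Fintype κ] [DecidableEq κ] (r : ℕ) (A : Fin r → κ → R), 0 < r →
    Fintype.card κ + 1 ≤ rs.length + r →
    (∀ x ∈ rs, ∃ M : ℕ, x ^ M ∈ Ideal.span (Set.range fun T : Fin r → κ =>
      (Matrix.of fun i j => A i (T j)).det)) →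
    ∀ v : κ → R, (∀ i, ∑ j, A i j * v j = 0) →
    ∃ cf : (Fin (r + 1) → κ) → R, ∀ j, v j = ∑ S, cf S * (brM A S (Pi.single j 1)).det

/-- the matrix with rows `(∂ g_0 | 0)` and `(∂ g_i | - g_i e_i)`, `i = 1, ..., r` -/
noncomputable def rowsA {σ : Type} {r : ℕ} (g : Fin (r + 1) → MvPolynomial σ ℂ) :
    Fin (r + 1) → (σ ⊕ Fin r) → MvPolynomial σ ℂ :=
  fun i => Sum.elim (fun l => pderiv l (g i)) (fun j => if i = j.succ then - g i else 0)

open scoped Classical in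
/-- MODULE LGEN: generators of the logarithmic vector fields -/
def LgenStmt : Prop :=
  ∀ (σ : Type) [Fintype σ] (r : ℕ) (g : Fin (r + 1) → MvPolynomial σ ℂ) (d : Fin (r + 1) → ℕ),
    IsOrd g d → ∀ H : σ → MvPolynomial σ ℂ, (∀ i, g i ∣ ap H (g i)) →
    ∃ (φ : MvPolynomial σ ℂ) (cf : (Fin (r + 1 + 1) → σ ⊕ Fin r) → MvPolynomial σ ℂ),
      ∀ l, H l = φ * X l + ∑ S, cf S * (brM (rowsA g) S (Pi.single (Sum.inl l) 1)).det

/-- MODULE STAR: logarithmic vector fields as contractions of bivector fields -/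
def StarStmt : Prop :=
  ∀ (σ ι : Type) [Fintype σ] [Fintype ι] (g : ι → MvPolynomial σ ℂ) (d : ι → ℕ), IsOrd g d →
    ∀ (i₀ : ι) (H : σ → MvPolynomial σ ℂ), (∀ i, g i ∣ ap H (g i)) →
    ∃ (φ : MvPolynomial σ ℂ) (W : σ → σ → MvPolynomial σ ℂ), (∀ l l', W l l' = - W l' l) ∧
      (∀ l, H l = φ * X l + ∑ l', pderiv l' (g i₀) * W l' l) ∧
      ∀ i, i ≠ i₀ → ∀ l, g i ∣ ∑ l', pderiv l' (g i) * W l' l

/-! ## Reduction of the pole order -/

open scoped Classical in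
/-- the equation `div h + β ∑ a_i h(g_i) / g_i = 1` for `h = H / ∏ g_i ^ m_i` -/
def TEq {σ ι : Type} [Fintype σ] [Fintype ι] (g : ι → MvPolynomial σ ℂ) (a : ι → ℕ) (β : ℂ)
    (m : ι → ℕ) (H : σ → MvPolynomial σ ℂ) : Prop :=
  (∏ i, g i) * dv H + ∑ i, C (β * a i - m i) * ap H (g i) * ∏ j ∈ univ.erase i, g j
    = (∏ i, g i) * ∏ i, g i ^ m i

/-- MODULE POLE: reduction to a linear vector field -/
def PoleStmt : Prop :=
  ∀ (σ ι : Type) [Fintype σ] [Fintype ι], 2 ≤ Fintype.card σ → ∀ (g : ι → MvPolynomial σ ℂ)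
    (d : ι → ℕ), IsOrd g d → ∀ a : ι → ℕ, (∀ i, 0 < a i) → ∀ β : ℂ,
    β * (∑ i, a i * d i : ℕ) = -(Fintype.card σ : ℂ) → ∀ (m : ι → ℕ) (H : σ → MvPolynomial σ ℂ),
    (∀ l, (H l).IsHomogeneous (1 + ∑ i, m i * d i)) → TEq g a β m H →
    ∃ H' : σ → MvPolynomial σ ℂ, (∀ l, (H' l).IsHomogeneous 1) ∧ TEq g a β 0 H'

/-- MODULE LINF: linear vector fields -/
def LinfStmt : Prop :=
  ∀ (σ ι : Type) [Fintype σ] [Fintype ι] [Nonempty ι], 2 ≤ Fintype.card σ →
    ∀ (g : ι → MvPolynomial σ ℂ)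
    (d : ι → ℕ), IsOrd g d → ∀ a : ι → ℕ, (∀ i, 0 < a i) → ∀ β : ℂ,
    β * (∑ i, a i * d i : ℕ) = -(Fintype.card σ : ℂ) → ∀ H : σ → MvPolynomial σ ℂ,
    (∀ l, (H l).IsHomogeneous 1) → TEq g a β 0 H → (∀ i, d i = 1) ∧ SncAt g 0

/-! ## The roots -/

/-- MODULE BROOT: the root of an ordinary multiple point -/
def BrootStmt : Prop :=
  ∀ (σ ι : Type) [Fintype σ] [Fintype ι], 2 ≤ Fintype.card σ → ∀ (f : ι → MvPolynomial σ ℂ)
    (a : ι → ℕ), (∀ i, 0 < a i) → ∀ c : ℂ, c ≠ 0 → ∀ (p : σ → ℂ) (d : ι → ℕ),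
    (∀ i, ∀ j < d i, homogeneousComponent j (tra p (f i)) = 0) →
    (∀ z : σ → ℂ, z ≠ 0 → SncAt (fun i => homogeneousComponent (d i) (tra p (f i))) z) →
    ¬ SncAt f p → 0 < ∑ i, a i * d i ∧
      (bfun (C c * ∏ i, f i ^ a i)).eval (-((Fintype.card σ : ℂ) / (∑ i, a i * d i : ℕ))) = 0

/-- MODULE MROOT: the roots of the components -/
def MrootStmt : Prop :=
  ∀ (σ ι : Type) [Fintype σ] [Fintype ι], 2 ≤ Fintype.card σ → ∀ (f : ι → MvPolynomial σ ℂ)
    (a : ι → ℕ), (∀ i, 0 < a i) → ∀ c : ℂ, c ≠ 0 → (∀ i, ∀ c' : ℂ, f i ≠ C c') →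
    ∀ T : Set (σ → ℂ), T.Finite → (∀ z, z ∉ T → SncAt f z) →
    ∀ i, (bfun (C c * ∏ i, f i ^ a i)).eval (-(1 / (a i : ℂ))) = 0

end Pool.Agent.Helper32_OMP
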