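import Pool.Agent.Helper32_OMP.Stmts
import Pool.Agent.Helper32_OMP.StmtB
import Pool.Agent.Helper6_Mono.Main

/-!
# Module FINAL: the main theorem, relative to the module statements
-/

set_option autoImplicit false
set_option linter.unusedVariables false
set_option linter.unusedSectionVars false

namespace Pool.Agent.Helper32_OMP

open PowerSeries Finset Pool.Agent.Helper6_Mono

/-- rationality of the zeta function -/
theorem zeta_rat {k : Type} [Field k] {σ : Type} [Fintype σ] (f : MvPolynomial σ k) (S : Set ℚ)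
    (hS : ∀ x ∈ S, 0 < x)
    (h : ∀ χ : SInv k (fun _ : σ => (0 : QZ)) (LL f), ∃ s : ℕ → MM f, s 0 = 0 ∧
      RP (LL f) (steps S) s ∧ ∀ (m : ℕ) (hm : m ≠ 0) (hω : m • om m = 0),
        s m = Li (LL f) ^ (m * Fintype.card σ) *
          χ.χ ((FibK k σ (om m) m hω).app (Jet f Set.univ m (om m)))) :
    ∃ P : Finset (ℤ × ℕ), (∀ p ∈ P, p.1 < 0 ∧ 0 < p.2 ∧ -((p.1 : ℚ) / p.2) ∈ S) ∧
      Zf f ∈ zetaRing f P := by
  obtain ⟨χ, hχ⟩ := exists_chi f
  obtain ⟨a, ha0, hRP, ha⟩ := h χ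
  have hz : Zf f = PowerSeries.mk a := by
    ext m
    rw [Zf, PowerSeries.coeff_mk, PowerSeries.coeff_mk]
    unfold zetaCoeff
    split_ifs with hm
    · rw [hm, ha0]
    · have hω : m • ((((1 : ℚ) / m : ℚ)) : QZ) = 0 := by
        rw [← AddCircle.coe_nsmul, nsmul_eq_mul, mul_one_div_cancel (by exact_mod_cast hm)]
        exact AddCircle.coe_period 1
      have hL : Lpow f (-(m * Nat.card σ)) = ((LL f)⁻¹ : (MM f)ˣ) ^ (m * Nat.card σ) := by
        unfold Lpow
        rw [← Units.val_pow_eq_pow_val, inv_pow, ← zpow_natCast, ← zpow_neg]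
        push_cast
        rfl
      rw [hχ m hm hω, hL, mul_comm, ha m hm hω, Nat.card_eq_fintype_card]
  obtain ⟨Dn, hDn, Q, hQ⟩ := hRP.toRG
  obtain ⟨P, hP, E, hE, hE1⟩ := denoms_inv (LL f) hS hDn
  refine ⟨P, hP, ?_⟩
  have e1 : Zf f = E * (Q : PowerSeries (MM f)) := by
    rw [← hQ, ← mul_assoc, hE1, one_mul, hz]
  rw [e1]
  have hgen : ({PowerSeries.X} ∪ {x : PowerSeries (MM f) | ∃ p ∈ P,
        x * (1 - PowerSeries.C ((LL f ^ p.1 : (MM f)ˣ) : MM f) * PowerSeries.X ^ p.2) = 1})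
      = gens f P := rfl
  rw [hgen] at hE
  show E * (Q : PowerSeries (MM f)) ∈ Algebra.adjoin (MM f) (gens f P)
  refine mul_mem hE ?_
  have hX : (PowerSeries.X : PowerSeries (MM f)) ∈ Algebra.adjoin (MM f) (gens f P) :=
    Algebra.subset_adjoin (Or.inl rfl)
  clear hQ e1
  induction Q using Polynomial.induction_on' with
  | add p q hp hq =>
    rw [Polynomial.coe_add]
    exact add_mem hp hq
  | monomial n c =>
    rw [← Polynomial.C_mul_X_pow_eq_monomial, Polynomial.coe_mul, Polynomial.coe_C,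
      Polynomial.coe_pow, Polynomial.coe_X]
    exact mul_mem (Subalgebra.algebraMap_mem _ c) (pow_mem hX n)

section map

variable {k K σ : Type} [Field k] [Field K] (φ : k →+* K)

theorem tra_map (p : σ → k) (f : MvPolynomial σ k) :
    tra (fun l => φ (p l)) (MvPolynomial.map φ f) = MvPolynomial.map φ (tra p f) := by
  induction f using MvPolynomial.induction_on with
  | C a =>
    rw [tra, tra, MvPolynomial.map_C, MvPolynomial.algHom_C, MvPolynomial.algHom_C]
    rw [MvPolynomial.algebraMap_eq, MvPolynomial.algebraMap_eq, MvPolynomial.map_C]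
  | add p q hp hq =>
    rw [tra] at hp hq ⊢
    rw [tra] at hp hq ⊢
    rw [map_add, map_add, hp, hq, map_add, map_add]
  | mul_X p i hp =>
    rw [tra] at hp ⊢
    rw [tra] at hp ⊢
    rw [map_mul, map_mul, hp, map_mul, map_mul, MvPolynomial.map_X, MvPolynomial.aeval_X,
      MvPolynomial.aeval_X, map_add, MvPolynomial.map_X, MvPolynomial.map_C]

theorem hcomp_map (n : ℕ) (f : MvPolynomial σ k) :
    MvPolynomial.homogeneousComponent n (MvPolynomial.map φ f)
      = MvPolynomial.map φ (MvPolynomial.homogeneousComponent n f) := by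
  ext e
  rw [MvPolynomial.coeff_homogeneousComponent, MvPolynomial.coeff_map, MvPolynomial.coeff_map,
    MvPolynomial.coeff_homogeneousComponent]
  split_ifs
  · rfl
  · rw [map_zero]

theorem map_ne_C (f : MvPolynomial σ k) (hf : ∀ c : k, f ≠ MvPolynomial.C c) (c : K) :
    MvPolynomial.map φ f ≠ MvPolynomial.C c := by
  classical
  intro hc
  have h1 : f.support ⊆ {0} := by
    rw [← MvPolynomial.support_map_of_injective _ φ.injective, hc]
    intro α hα
    rw [MvPolynomial.mem_support_iff, MvPolynomial.coeff_C] at hα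
    by_contra h2
    rw [Finset.mem_singleton] at h2
    rw [if_neg (Ne.symm h2)] at hα
    exact hα rfl
  apply hf (MvPolynomial.coeff 0 f)
  ext α
  rw [MvPolynomial.coeff_C]
  split_ifs with h2
  · rw [← h2]
  · by_contra h3
    have h4 := h1 (MvPolynomial.mem_support_iff.2 h3)
    exact h2 (Finset.mem_singleton.1 h4).symm

end map

/-- **the main theorem**, relative to the module statements -/
theorem final (hZ : ZasmStmt) (hB : BrootStmt) (hM : MrootStmt) {k : Type} [Field k]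
    [Algebra k ℂ] {σ ι : Type} [Fintype σ] [Fintype ι] (hn : 2 ≤ Fintype.card σ)
    (f : ι → MvPolynomial σ k) (hf : ∀ i, ∀ c : k, f i ≠ MvPolynomial.C c) (a : ι → ℕ)
    (ha : ∀ i, 0 < a i) (c : k) (hc : c ≠ 0) (T : Finset (σ → k))
    (hA : ∀ z : σ → ℂ, (∀ p ∈ T, z ≠ fun l => algebraMap k ℂ (p l)) →
      SncAt (fun i => MvPolynomial.map (algebraMap k ℂ) (f i)) z)
    (hO : ∀ p ∈ T, OrdAt (fun i => MvPolynomial.map (algebraMap k ℂ) (f i))
      fun l => algebraMap k ℂ (p l)) :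
    ∃ S : Finset (ℤ × ℕ),
      (∀ p ∈ S, p.1 < 0 ∧ 0 < p.2 ∧
        (bfun (MvPolynomial.map (algebraMap k ℂ) (MvPolynomial.C c * ∏ i, f i ^ a i))).eval
          ((p.1 : ℂ) / (p.2 : ℂ)) = 0) ∧
      Zf (MvPolynomial.C c * ∏ i, f i ^ a i) ∈ zetaRing (MvPolynomial.C c * ∏ i, f i ^ a i) S := by
  classical
  have hinj : Function.Injective (algebraMap k ℂ) := (algebraMap k ℂ).injective
  have hcC : algebraMap k ℂ c ≠ 0 := fun h => hc (hinj (h.trans (map_zero _).symm))
  obtain ⟨g, hg⟩ : ∃ g : ι → MvPolynomial σ ℂ,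
      g = fun i => MvPolynomial.map (algebraMap k ℂ) (f i) := ⟨_, rfl⟩
  rw [← hg] at hA hO
  have hmap : MvPolynomial.map (algebraMap k ℂ) (MvPolynomial.C c * ∏ i, f i ^ a i)
      = MvPolynomial.C (algebraMap k ℂ c) * ∏ i, g i ^ a i := by
    rw [map_mul, MvPolynomial.map_C, map_prod, hg]
    simp only [map_pow]
  rw [hmap]
  -- the multiple points
  have hd : ∀ p : σ → k, ∃ d : ι → ℕ, p ∈ T →
      (∀ i, ∀ j < d i, MvPolynomial.homogeneousComponent j
        (tra (fun l => algebraMap k ℂ (p l)) (g i)) = 0) ∧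
      ∀ z : σ → ℂ, z ≠ 0 → SncAt (fun i => MvPolynomial.homogeneousComponent (d i)
        (tra (fun l => algebraMap k ℂ (p l)) (g i))) z := by
    intro p
    by_cases hp : p ∈ T
    · obtain ⟨d, hd⟩ := hO p hp
      exact ⟨d, fun _ => hd⟩
    · exact ⟨fun _ => 0, fun h => absurd h hp⟩
  choose d hd using hd
  obtain ⟨T', hT'⟩ : ∃ T' : Finset (σ → k), ∀ p, p ∈ T' ↔
      p ∈ T ∧ ¬ SncAt g (fun l => algebraMap k ℂ (p l)) :=
    ⟨T.filter fun p => ¬ SncAt g (fun l => algebraMap k ℂ (p l)), fun p => Finset.mem_filter⟩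
  have hA' : ∀ z : σ → ℂ, (∀ p ∈ T', z ≠ fun l => algebraMap k ℂ (p l)) → SncAt g z := by
    intro z hz
    by_contra hs
    by_cases h : ∀ p ∈ T, z ≠ fun l => algebraMap k ℂ (p l)
    · exact hs (hA z h)
    · push Not at h
      obtain ⟨p, hp, h⟩ := h
      exact hz p ((hT' p).2 ⟨hp, h ▸ hs⟩) h
  have hcomp : ∀ (p : σ → k) (i : ι) (j : ℕ),
      MvPolynomial.homogeneousComponent j (tra (fun l => algebraMap k ℂ (p l)) (g i))
        = MvPolynomial.map (algebraMap k ℂ)
          (MvPolynomial.homogeneousComponent j (tra p (f i))) := by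
    intro p i j
    rw [hg]
    show MvPolynomial.homogeneousComponent j (tra (fun l => algebraMap k ℂ (p l))
      (MvPolynomial.map (algebraMap k ℂ) (f i))) = _
    rw [tra_map, hcomp_map]
  have hBr : ∀ p ∈ T', 0 < ∑ i, a i * d p i ∧
      (bfun (MvPolynomial.C (algebraMap k ℂ c) * ∏ i, g i ^ a i)).eval
        (-((Fintype.card σ : ℂ) / (∑ i, a i * d p i : ℕ))) = 0 := by
    intro p hp
    obtain ⟨hp1, hp2⟩ := (hT' p).1 hp
    exact hB σ ι hn g a ha (algebraMap k ℂ c) hcC (fun l => algebraMap k ℂ (p l)) (d p)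
      (hd p hp1).1 (hd p hp1).2 hp2
  obtain ⟨S, hS⟩ : ∃ S : Set ℚ, S = {x | ∃ i, x = 1 / (a i : ℚ)} ∪
        {x | ∃ p ∈ T', x = (Fintype.card σ : ℚ) / (∑ i, a i * d p i : ℕ)} := ⟨_, rfl⟩
  have hpos : ∀ x ∈ S, 0 < x := by
    rw [hS]
    rintro x (⟨i, rfl⟩ | ⟨p, hp, rfl⟩)
    · have h1 : (0 : ℚ) < a i := by exact_mod_cast ha i
      exact one_div_pos.2 h1
    · have h1 : (0 : ℚ) < ((∑ i, a i * d p i : ℕ) : ℚ) := by exact_mod_cast (hBr p hp).1
      have h2 : (0 : ℚ) < (Fintype.card σ : ℚ) := by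
        exact_mod_cast lt_of_lt_of_le (by norm_num : 0 < 2) hn
      exact div_pos h2 h1
  have hroot : ∀ x ∈ S, (bfun (MvPolynomial.C (algebraMap k ℂ c) * ∏ i, g i ^ a i)).eval
      (-(x : ℂ)) = 0 := by
    rw [hS]
    rintro x (⟨i, rfl⟩ | ⟨p, hp, rfl⟩)
    · have h1 := hM σ ι hn g a ha (algebraMap k ℂ c) hcC (fun i c' => by
          rw [hg]
          exact map_ne_C _ (f i) (hf i) c')
        ((fun p : σ → k => fun l => algebraMap k ℂ (p l)) '' (T : Set (σ → k)))
        (T.finite_toSet.image _) (fun z hz => hA z fun p hp h => hz ⟨p, hp, h.symm⟩) i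
      rw [Rat.cast_div, Rat.cast_one, Rat.cast_natCast]
      exact h1
    · have h1 := (hBr p hp).2
      rw [Rat.cast_div, Rat.cast_natCast, Rat.cast_natCast]
      exact h1
  obtain ⟨P, hP, hZ'⟩ := zeta_rat (MvPolynomial.C c * ∏ i, f i ^ a i) S hpos (fun χ => by
    rw [hS]
    refine hZ k σ ι (MM (MvPolynomial.C c * ∏ i, f i ^ a i))
      (LL (MvPolynomial.C c * ∏ i, f i ^ a i)) χ f a ha c hc T' d ?_ ?_ fun p hp => (hBr p hp).1
    · rw [← hg]
      exact hA'
    · intro p hp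
      obtain ⟨h1, h2⟩ := hd p ((hT' p).1 hp).1
      refine ⟨fun i j hj => ?_, fun z hz => ?_⟩
      · have h3 := h1 i j hj
        rw [hcomp] at h3
        exact MvPolynomial.map_injective _ hinj (h3.trans (map_zero _).symm)
      · have h3 := h2 z hz
        simp only [hcomp] at h3
        exact h3)
  refine ⟨P, fun p hp => ?_, hZ'⟩
  obtain ⟨h1, h2, h3⟩ := hP p hp
  refine ⟨h1, h2, ?_⟩
  have h4 := hroot _ h3
  have h5 : (-(((-((p.1 : ℚ) / (p.2 : ℚ)) : ℚ) : ℚ) : ℂ)) = (p.1 : ℂ) / (p.2 : ℂ) := by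
    push_cast
    ring
  rw [h5] at h4
  exact h4

end Pool.Agent.Helper32_OMP
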