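import Pool.Agent.Helper32_OMP.Loc0
import Pool.Agent.Helper37_OMP.Tor
import Pool.Agent.Helper37_OMP.Shc

/-!
# Module LOCP: strata at a multiple point
-/

set_option autoImplicit false
set_option linter.unusedVariables false
set_option linter.unusedSectionVars false

namespace Pool.Agent.Helper32_OMP

open Finset Pool.Agent.Helper6_Mono

section

variable {k : Type} [Field k] {σ ι : Type} [Fintype σ] [Fintype ι]

theorem at0_tpow (G : MvPolynomial (Option σ) k) {j : ℕ} (hj : 1 ≤ j) : at0 (tpow j G) = at0 G := by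
  rw [at0, at0, tpow, ← AlgHom.comp_apply, MvPolynomial.comp_aeval]
  congr 2
  funext o
  cases o with
  | none =>
    show MvPolynomial.aeval _ (MvPolynomial.X none ^ j) = (0 : MvPolynomial σ k)
    rw [map_pow, MvPolynomial.aeval_X]
    exact zero_pow (by omega)
  | some l =>
    show MvPolynomial.aeval _ (MvPolynomial.X (some l)) = (MvPolynomial.X l : MvPolynomial σ k)
    rw [MvPolynomial.aeval_X]
    rfl

/-- the points `y` such that `Φ t` is invertible for `t ∈ U` and vanishes for `t ∉ U`, and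
`h(y) = 1` -/
@[reducible] noncomputable def KT {Θ : Type} (p : σ → k) (Φ : Θ → MvPolynomial σ k)
    (dΦ : Θ → ℕ) (hΦ : ∀ t, (Φ t).IsHomogeneous (dΦ t)) (U : Finset Θ) (h : MvPolynomial σ k)
    (dh : ℕ) (hh : h.IsHomogeneous dh) (θ : QZ) (hθ : dh • θ = 0) :
    Over k QZ σ (fun _ => (0 : QZ)) where
  F := (GF.pi k (fun _ : σ => θ)).sub
    (fun S _ _ x => (∀ t, (t ∈ U → IsUnit (MvPolynomial.aeval x (Φ t))) ∧
        (t ∉ U → MvPolynomial.aeval x (Φ t) = 0)) ∧ MvPolynomial.aeval x h = 1)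
    (fun {S S'} _ _ _ _ φ c x hx => by
      have h1 : ∀ (q : MvPolynomial σ k) (d : ℕ), q.IsHomogeneous d →
          MvPolynomial.aeval (fun l => chr c θ * φ (x l)) q
            = chr c (d • θ) * φ (MvPolynomial.aeval x q) :=
        fun q d hq => aeval_tw (hom_of_isHomogeneous hq θ) φ c x
      refine ⟨fun t => ⟨fun ht => ?_, fun ht => ?_⟩, ?_⟩
      · rw [h1 _ _ (hΦ t)]
        exact (chr_isUnit c _).mul (((hx.1 t).1 ht).map φ)
      · rw [h1 _ _ (hΦ t), (hx.1 t).2 ht, map_zero, mul_zero]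
      · rw [h1 _ _ hh, hθ, chr_zero, hx.2, map_one, one_mul])
  pt l := ⟨fun {S} _ _ _ => algebraMap k S (p l), fun φ c _ => by
    rw [chr_zero, one_mul, AlgHom.commutes]⟩

variable (D : LP k σ ι) (V : Finset σ) (g : ι → MvPolynomial σ k) {ϑ : ι → QZ}
  (hg : ∀ i, MvPolynomial.IsWeightedHomogeneous (fun _ : σ => D.θ) (g i) (ϑ i))
  (hgF : ∀ i, at0 (D.F i) = g i) (U : Finset (Th σ ι)) (p : σ → k)
  (hP : ∀ l, D.P l = MvPolynomial.C (p l))

/-- the polynomials of the stratum -/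
noncomputable def Phi2 : σ ⊕ Th σ ι → MvPolynomial σ k := Sum.elim MvPolynomial.X (PhiM g)

open scoped Classical in
theorem mem_strat (S : Type) [CommRing S] [Algebra k S] (y : σ → S) :
    ((∀ l ∈ (univ : Finset σ), (l ∈ V → IsUnit (MvPolynomial.aeval y (MvPolynomial.X l :
        MvPolynomial σ k))) ∧ (l ∉ V → MvPolynomial.aeval y (MvPolynomial.X l :
        MvPolynomial σ k) = 0)) ∧
      ∀ t ∈ (univ : Finset (Th σ ι)), (t ∈ U → IsUnit (MvPolynomial.aeval y (PhiM g t))) ∧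
        (t ∉ U → MvPolynomial.aeval y (PhiM g t) = 0)) ↔
    ∀ t, (t ∈ V.disjSum U → IsUnit (MvPolynomial.aeval y (Phi2 g t))) ∧
        (t ∉ V.disjSum U → MvPolynomial.aeval y (Phi2 g t) = 0) := by
  constructor
  · rintro ⟨h1, h2⟩ (l | t)
    · rw [Finset.inl_mem_disjSum]
      exact h1 l (mem_univ _)
    · rw [Finset.inr_mem_disjSum]
      exact h2 t (mem_univ _)
  · intro h
    refine ⟨fun l _ => ?_, fun t _ => ?_⟩
    · have h1 := h (Sum.inl l)
      rw [Finset.inl_mem_disjSum] at h1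
      exact h1
    · have h1 := h (Sum.inr t)
      rw [Finset.inr_mem_disjSum] at h1
      exact h1

open scoped Classical in
/-- the right side of the equation -/
noncomputable def hpol (c : k) (a : ι → ℕ) (I : Finset ι) : MvPolynomial σ k :=
  MvPolynomial.C c * ∏ i ∈ univ \ I, g i ^ a i

open scoped Classical in
include hgF in
theorem aeval_hpol (I : Finset ι) {S : Type} [CommRing S] [Algebra k S] (y : σ → S) :
    algebraMap k S D.c * ∏ i ∈ univ \ I, MvPolynomial.aeval y (at0 (D.F i)) ^ D.a i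
      = MvPolynomial.aeval y (hpol g D.c D.a I) := by
  rw [hpol, map_mul, MvPolynomial.algHom_C, map_prod]
  congr 1
  refine Finset.prod_congr rfl fun i _ => ?_
  rw [map_pow, hgF]

include hgF hP in
theorem kk_tt (I : Finset ι) (dΦ : σ ⊕ Th σ ι → ℕ)
    (hΦ : ∀ t, (Phi2 g t).IsHomogeneous (dΦ t)) (dh : ℕ) (hh : (hpol g D.c D.a I).IsHomogeneous dh)
    (r : ℕ) (w0 : QZ) (hw' : dh • D.θ + r • w0 = 0) {wh : QZ}
    (hn : NF (YD D (Zst MvPolynomial.X (X_hom D.θ) V g hg U)).F wh)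
    (hnE : ∀ (S : Type) [CommRing S] [Algebra k S]
      (x : (YD D (Zst MvPolynomial.X (X_hom D.θ) V g hg U)).F.obj S),
        hn.fn x = MvPolynomial.aeval x.1.1 (hpol g D.c D.a I)) (hw : wh + ∑ i : Unit, r • w0 = 0) :
    OIso (KKf QZ D.θ w0 p (Phi2 g) dΦ hΦ (V.disjSum U) (hpol g D.c D.a I) dh hh r hw')
      (TT (YD D (Zst MvPolynomial.X (X_hom D.θ) V g hg U)) hn (fun _ : Unit => r)
        (fun _ => w0) hw) := by
  classical
  refine OIso.mk'
    (fun S _ _ x => ⟨(⟨⟨x.1.1, ((mem_strat V g U S x.1.1).2 x.2.1).1⟩,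
      ((mem_strat V g U S x.1.1).2 x.2.1).2⟩, fun _ => x.1.2), ?_⟩)
    (fun S _ _ x => ⟨(x.1.1.1.1, x.1.2 ()), (mem_strat V g U S x.1.1.1.1).1
      ⟨x.1.1.1.2, x.1.1.2⟩, ?_⟩) ?_ ?_ ?_ ?_
  · show hn.fn _ * ∏ i : Unit, x.1.2 ^ r = 1
    have h2 : ∏ i : Unit, x.1.2 ^ r = x.1.2 ^ r := Fintype.prod_unique _
    rw [hnE, h2]
    exact x.2.2
  · have h1 : hn.fn x.1.1 * ∏ i : Unit, x.1.2 i ^ r = 1 := x.2
    have h2 : ∏ i : Unit, x.1.2 i ^ r = x.1.2 () ^ r := Fintype.prod_unique _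
    rw [hnE, h2] at h1
    exact h1
  · intro S _ _ x
    rfl
  · intro S _ _ x
    rfl
  · intro S S' _ _ _ _ φ c x
    rfl
  · intro S _ _ x b
    show MvPolynomial.aeval _ (D.P b) = algebraMap k S (p b)
    rw [hP, MvPolynomial.algHom_C]

include hgF hP in
theorem tor_kt (I : Finset ι) (hI : ¬ Nonempty I) (e : I → ℕ)
    (he : ∑ i : I, D.a i * e i = D.M) (dΦ : σ ⊕ Th σ ι → ℕ)
    (hΦ : ∀ t, (Phi2 g t).IsHomogeneous (dΦ t)) (dh : ℕ) (hh : (hpol g D.c D.a I).IsHomogeneous dh)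
    (hθ : dh • D.θ = 0) :
    OIso (D.Tor (Zst MvPolynomial.X (X_hom D.θ) V g hg U) I e he)
      (KT p (Phi2 g) dΦ hΦ (V.disjSum U) (hpol g D.c D.a I) dh hh D.θ hθ) := by
  classical
  have hIe : IsEmpty I := not_nonempty_iff.1 hI
  refine OIso.mk'
    (fun S _ _ x => ⟨x.1.1.1.1, (mem_strat V g U S x.1.1.1.1).1
      ⟨x.1.1.1.2, x.1.1.2⟩, ?_⟩)
    (fun S _ _ x => ⟨(⟨⟨x.1, ((mem_strat V g U S x.1).2 x.2.1).1⟩,
      ((mem_strat V g U S x.1).2 x.2.1).2⟩, fun i => (hI ⟨i⟩).elim), ?_⟩) ?_ ?_ ?_ ?_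
  · have h1 : algebraMap k S D.c * (∏ i ∈ univ \ I, MvPolynomial.aeval
        ((Zst MvPolynomial.X (X_hom D.θ) V g hg U).base x.1.1) (at0 (D.F i)) ^ D.a i) *
          ∏ i : I, x.1.2 i ^ D.a i = 1 := x.2
    have h2 : ∏ i : I, x.1.2 i ^ D.a i = 1 :=
      Finset.prod_eq_one fun i _ => (hI ⟨i⟩).elim
    rw [h2, mul_one, aeval_hpol D g hgF I] at h1
    exact h1
  · show algebraMap k S D.c * (∏ i ∈ univ \ I, MvPolynomial.aeval x.1 (at0 (D.F i)) ^ D.a i) *
          ∏ i : I, ((fun i => (hI ⟨i⟩).elim : I → S) i) ^ D.a i = 1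
    have h2 : ∏ i : I, ((fun i => (hI ⟨i⟩).elim : I → S) i) ^ D.a i = 1 :=
      Finset.prod_eq_one fun i _ => (hI ⟨i⟩).elim
    rw [h2, mul_one, aeval_hpol D g hgF I]
    exact x.2.2
  · intro S _ _ x
    refine Subtype.ext (Prod.ext rfl ?_)
    funext i
    exact (hI ⟨i⟩).elim
  · intro S _ _ x
    rfl
  · intro S S' _ _ _ _ φ c x
    rfl
  · intro S _ _ x b
    show algebraMap k S (p b) = MvPolynomial.aeval _ (D.P b)
    rw [hP, MvPolynomial.algHom_C]

theorem phi2_hom (g : ι → MvPolynomial σ k) (d : ι → ℕ) (hg : ∀ i, (g i).IsHomogeneous (d i)) :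
    ∃ dΦ : σ ⊕ Th σ ι → ℕ, ∀ t, (Phi2 g t).IsHomogeneous (dΦ t) := by
  classical
  have h : ∀ t : σ ⊕ Th σ ι, ∃ n, (Phi2 g t).IsHomogeneous n := by
    rintro (l | i | ⟨I, τ⟩)
    · exact ⟨1, MvPolynomial.isHomogeneous_X _ _⟩
    · exact ⟨d i, hg i⟩
    · refine ⟨∑ i : I, (d i - 1), ?_⟩
      show (Matrix.of fun i i' : I => MvPolynomial.pderiv (τ i') (g i)).det.IsHomogeneous _
      rw [Matrix.det_apply']
      refine MvPolynomial.IsHomogeneous.sum _ _ _ fun s _ => ?_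
      have h1 : (∏ i : I, MvPolynomial.pderiv (τ i) (g (s i))).IsHomogeneous
          (∑ i : I, (d i - 1)) := by
        have h2 : ∑ i : I, (d i - 1) = ∑ i : I, (d (s i) - 1) :=
          (Equiv.sum_comp s fun i : I => d i - 1).symm
        rw [h2]
        exact MvPolynomial.IsHomogeneous.prod _ _ _ fun i _ => (hg (s i)).pderiv
      have h3 : (((Equiv.Perm.sign s : ℤ) : MvPolynomial σ k))
          * ∏ i : I, (Matrix.of fun i i' : I => MvPolynomial.pderiv (τ i') (g i)) (s i) i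
          = MvPolynomial.C ((Equiv.Perm.sign s : ℤ) : k)
            * ∏ i : I, MvPolynomial.pderiv (τ i) (g (s i)) := by
        rw [map_intCast]
        rfl
      rw [h3, ← zero_add (∑ i : I, (d i - 1))]
      exact (MvPolynomial.isHomogeneous_C _ _).mul h1
  choose n hn using h
  exact ⟨n, hn⟩

theorem hpol_hom (g : ι → MvPolynomial σ k) (d : ι → ℕ) (hg : ∀ i, (g i).IsHomogeneous (d i))
    (c : k) (a : ι → ℕ) (I : Finset ι) [DecidableEq ι] :
    (hpol g c a I).IsHomogeneous (∑ i ∈ univ \ I, a i * d i) := by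
  have h1 : (hpol g c a I) = MvPolynomial.C c * ∏ i ∈ univ \ I, g i ^ a i := by
    rw [hpol]
    congr 1
    refine Finset.prod_congr ?_ fun _ _ => rfl
    ext i
    simp
  rw [h1, ← zero_add (∑ i ∈ univ \ I, a i * d i)]
  refine (MvPolynomial.isHomogeneous_C _ _).mul (MvPolynomial.IsHomogeneous.prod _ _ _ fun i _ => ?_)
  rw [mul_comm]
  exact (hg i).pow _

end

theorem locp (hCell : CellStmt) (hTor : TorStmt) (hShc : ShcStmt) : LocpStmt := by
  intro k _ σ ι _ _ R _ L χ f a ha c hc P hds V hV U hU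
  classical
  obtain ⟨τ, hτ⟩ := hU
  obtain ⟨dΦ, hΦ⟩ := phi2_hom (fun i => at0 (P.G i)) P.d P.hom0
  obtain ⟨dh, hdh⟩ : ∃ dh : ℕ, dh = ∑ i ∈ univ \ zset U, a i * P.d i := ⟨_, rfl⟩
  have hh : (hpol (fun i => at0 (P.G i)) c a (zset U)).IsHomogeneous dh := by
    rw [hdh]
    exact hpol_hom (fun i => at0 (P.G i)) P.d P.hom0 c a (zset U)
  have hFT : ∀ j m : ℕ, FT (Zst MvPolynomial.X (X_hom (j • om m)) V (fun i => at0 (P.G i))
      (fun i => hom_of_isHomogeneous (P.hom0 i) (j • om m)) U).F :=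
    fun j m => FT.tor (FT.tor (FT.affY (j • om m)) _ _ _) _ _ _
  have hcell : ∀ (j m : ℕ) (hm : m ≠ 0) (h : j * P.ds a ≤ m), 1 ≤ j →
      IsCell (lpP P a c j m hm h) (Zst MvPolynomial.X (X_hom (j • om m)) V
        (fun i => at0 (P.G i)) (fun i => hom_of_isHomogeneous (P.hom0 i) (j • om m)) U)
        (zset U) τ :=
    fun j m hm h hj => isCell (lpP P a c j m hm h) MvPolynomial.X (X_hom (j • om m)) V
      (fun i => at0 (P.G i)) _ (fun i => at0_tpow _ hj) U τ hτ
  have hsplit : P.ds a = dh + ∑ i : zset U, a i * P.d i := by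
    rw [MPt.ds, hdh, Finset.sum_coe_sort (zset U) (fun i => a i * P.d i),
      Finset.sum_sdiff (Finset.subset_univ _)]
  by_cases hI : Nonempty (zset U)
  · obtain ⟨r, hr⟩ : ∃ r : ℕ, r = gcdI (fun i : zset U => a i) := ⟨_, rfl⟩
    have hr0 : 0 < r := by
      rw [hr]
      exact gcdI_pos fun i => ha i
    obtain ⟨l, hl⟩ := hV
    obtain ⟨c₀, hc₀⟩ := hShc k σ (σ ⊕ Th σ ι) R L χ P.p (Phi2 fun i => at0 (P.G i)) dΦ hΦ
      (V.disjSum U) (hpol (fun i => at0 (P.G i)) c a (zset U)) dh hh r hr0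
      ⟨l, Sum.inl l, Finset.inl_mem_disjSum.2 hl, rfl⟩
    refine ⟨((L : R) - 1) ^ (Fintype.card (zset U) - 1) * c₀, fun j m hm h hj => ?_⟩
    refine (hCell k σ ι R L χ (lpP P a c j m hm h) ha hc _ (hFT j m) (zset U) τ
      (hcell j m hm h hj)).trans ?_
    refine sum_cell (zset U) a (m - j * P.ds a) _ (fun u he => χ.χ ((lpP P a c j m hm h).Tor
      (Zst MvPolynomial.X (X_hom (j • om m)) V
        (fun i => at0 (P.G i)) (fun i => hom_of_isHomogeneous (P.hom0 i) (j • om m)) U) (zset U)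
      (fun i => (u i : ℕ) + 1) he.2)) fun u he => ?_
    rw [tor_eq]
    refine (hTor k σ (fun _ => 0) R L χ (YD (lpP P a c j m hm h) _) (hFT j m) _
      (hD (lpP P a c j m hm h) _ (zset U)) (zset U) (fun i : zset U => a i) (fun i => ha i)
      (fun i => (lpP P a c j m hm h).ϑ i + ((u i : ℕ) + 1) • (lpP P a c j m hm h).ω)
      (hDw (lpP P a c j m hm h) (zset U) (fun i => (u i : ℕ) + 1) he.2)).trans ?_
    congr 1
    obtain ⟨w0, hw0⟩ : ∃ w0 : QZ, w0 = ∑ i : zset U, (a i / gcdI (fun i : zset U => a i)) •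
      (P.d i • (j • om m) + ((u i : ℕ) + 1) • om m) := ⟨_, rfl⟩
    have hN : w0 = (∑ i : zset U, (a i / r) * (P.d i * j + ((u i : ℕ) + 1))) • om m := by
      rw [hw0, Finset.sum_smul, hr]
      refine Finset.sum_congr rfl fun i _ => ?_
      rw [smul_smul (P.d i) j, ← add_smul, smul_smul]
    have hwt : ∑ i ∈ univ \ zset U, a i • (P.d i • (j • om m)) + ∑ i : Unit, r • w0 = 0 := by
      rw [hr, hw0]
      exact gcdI_sum (fun i : zset U => a i) _ (hDw (lpP P a c j m hm h) (zset U)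
        (fun i => (u i : ℕ) + 1) he.2)
    have hw' : dh • (j • om m) + r • w0 = 0 := by
      rw [← hwt, hdh, Finset.sum_smul]
      congr 1
      · refine Finset.sum_congr rfl fun i _ => ?_
        rw [smul_smul (a i) (P.d i)]
      · exact (Fintype.sum_unique (fun _ : Unit => r • w0)).symm
    have hmul : r * ∑ i : zset U, (a i / r) * (P.d i * j + ((u i : ℕ) + 1))
        = j * (∑ i : zset U, a i * P.d i) + (m - j * P.ds a) := by
      have h5 : ∀ i : zset U, r * ((a i / r) * (P.d i * j + ((u i : ℕ) + 1)))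
          = j * (a i * P.d i) + a i * ((u i : ℕ) + 1) := by
        intro i
        have h6 : r * (a i / r) = a i := by
          rw [hr]
          exact gcdI_mul (fun i : zset U => a i) i
        calc r * ((a i / r) * (P.d i * j + ((u i : ℕ) + 1)))
            = (r * (a i / r)) * (P.d i * j + ((u i : ℕ) + 1)) := by ring
          _ = _ := by rw [h6]; ring
      have h7 : ∑ i : zset U, a i * ((u i : ℕ) + 1) = m - j * P.ds a := he.2
      rw [Finset.mul_sum, Finset.sum_congr rfl fun i _ => h5 i, Finset.sum_add_distrib,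
        ← Finset.mul_sum, h7]
    have hcond : (dh / Nat.gcd dh r) • (j • om m) + (r / Nat.gcd dh r) • w0
        = (((1 : ℚ) / (Nat.gcd dh r) : ℚ) : QZ) := by
      rw [hN, smul_smul (dh / Nat.gcd dh r) j, smul_smul (r / Nat.gcd dh r), ← add_smul]
      refine om_mul hm ?_
      have e1 : Nat.gcd dh r * (dh / Nat.gcd dh r) = dh := Nat.mul_div_cancel' (Nat.gcd_dvd_left _ _)
      have e2 : Nat.gcd dh r * (r / Nat.gcd dh r) = r := Nat.mul_div_cancel' (Nat.gcd_dvd_right _ _)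
      calc _ = (Nat.gcd dh r * (dh / Nat.gcd dh r)) * j + (Nat.gcd dh r * (r / Nat.gcd dh r)) *
            ∑ i : zset U, (a i / r) * (P.d i * j + ((u i : ℕ) + 1)) := by ring
        _ = dh * j + (j * (∑ i : zset U, a i * P.d i) + (m - j * P.ds a)) := by
            rw [e1, e2, hmul]
        _ = j * P.ds a + (m - j * P.ds a) := by rw [hsplit]; ring
        _ = m := Nat.add_sub_cancel' h
    have hfin := hc₀ (j • om m) w0 hw' hcond
    rw [← hfin]
    have key : ∀ (w : QZ) (r' : ℕ) (hw : ∑ i ∈ univ \ zset U, a i • (P.d i • (j • om m)) +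
        ∑ i : Unit, r' • w = 0), r' = r → w = w0 →
        χ.χ (TT (YD (lpP P a c j m hm h) (Zst MvPolynomial.X (X_hom (j • om m)) V
          (fun i => at0 (P.G i)) (fun i => hom_of_isHomogeneous (P.hom0 i) (j • om m)) U))
          (hD (lpP P a c j m hm h) (Zst MvPolynomial.X (X_hom (j • om m)) V
          (fun i => at0 (P.G i)) (fun i => hom_of_isHomogeneous (P.hom0 i) (j • om m)) U)
            (zset U)) (fun _ : Unit => r') (fun _ => w) hw)
        = χ.χ (KKf QZ (j • om m) w0 P.p (Phi2 fun i => at0 (P.G i)) dΦ hΦ (V.disjSum U)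
          (hpol (fun i => at0 (P.G i)) c a (zset U)) dh hh r hw') := by
      rintro w r' hw rfl rfl
      exact (χ.iso (H37.KKf_FT _ _ _ _ _ _ _ _ _ _ _ _) (kk_tt (lpP P a c j m hm h) V
        (fun i => at0 (P.G i)) (fun i => hom_of_isHomogeneous (P.hom0 i) (j • om m))
        (fun i => at0_tpow _ hj) U P.p (fun l => rfl) (zset U) dΦ hΦ dh hh _ _ hw'
        (hD (lpP P a c j m hm h) _ (zset U)) (fun S _ _ x =>
          aeval_hpol (lpP P a c j m hm h) (fun i => at0 (P.G i)) (fun i => at0_tpow _ hj)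
            (zset U) x.1.1) hw)).symm
    exact key _ _ _ hr.symm hw0.symm
  · have hdh' : P.ds a = dh := by
      have : IsEmpty (zset U) := not_nonempty_iff.1 hI
      rw [hsplit, Finset.univ_eq_empty, Finset.sum_empty, add_zero]
    have hθ0 : dh • om (P.ds a) = 0 := by
      rw [← hdh']
      exact om_smul hds.ne'
    refine ⟨χ.χ (KT P.p (Phi2 fun i => at0 (P.G i)) dΦ hΦ (V.disjSum U)
      (hpol (fun i => at0 (P.G i)) c a (zset U)) dh hh (om (P.ds a)) hθ0),
      fun j m hm h hj => ?_⟩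
    refine (hCell k σ ι R L χ (lpP P a c j m hm h) ha hc _ (hFT j m) (zset U) τ
      (hcell j m hm h hj)).trans ?_
    refine sum_cell (zset U) a (m - j * P.ds a) _ (fun u he => χ.χ ((lpP P a c j m hm h).Tor
      (Zst MvPolynomial.X (X_hom (j • om m)) V
        (fun i => at0 (P.G i)) (fun i => hom_of_isHomogeneous (P.hom0 i) (j • om m)) U) (zset U)
      (fun i => (u i : ℕ) + 1) he.2)) fun u he => ?_
    have h1 : m = j * P.ds a := by
      have h2 : ∑ i : zset U, a i * ((u i : ℕ) + 1) = m - j * P.ds a := he.2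
      have : IsEmpty (zset U) := not_nonempty_iff.1 hI
      rw [Finset.univ_eq_empty, Finset.sum_empty] at h2
      omega
    have h3 : j • om m = om (P.ds a) := om_mul hm (by rw [h1, mul_comm])
    have hθ1 : dh • (j • om m) = 0 := by rw [h3]; exact hθ0
    have h4 : FT ((lpP P a c j m hm h).Tor
      (Zst MvPolynomial.X (X_hom (j • om m)) V
        (fun i => at0 (P.G i)) (fun i => hom_of_isHomogeneous (P.hom0 i) (j • om m)) U) (zset U)
      (fun i => (u i : ℕ) + 1) he.2).F := by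
      exact H37.TT_FT (Y := YD (lpP P a c j m hm h) (Zst MvPolynomial.X (X_hom (j • om m)) V
        (fun i => at0 (P.G i)) (fun i => hom_of_isHomogeneous (P.hom0 i) (j • om m)) U))
        (hFT j m) (hD (lpP P a c j m hm h) _ (zset U)) _ _
        (hDw (lpP P a c j m hm h) (zset U) (fun i => (u i : ℕ) + 1) he.2)
    have h5 : χ.χ ((lpP P a c j m hm h).Tor
      (Zst MvPolynomial.X (X_hom (j • om m)) V
        (fun i => at0 (P.G i)) (fun i => hom_of_isHomogeneous (P.hom0 i) (j • om m)) U) (zset U)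
      (fun i => (u i : ℕ) + 1) he.2) = χ.χ (KT P.p (Phi2 fun i => at0 (P.G i)) dΦ hΦ
        (V.disjSum U) (hpol (fun i => at0 (P.G i)) c a (zset U)) dh hh (j • om m) hθ1) :=
      χ.iso h4 (tor_kt (lpP P a c j m hm h) V (fun i => at0 (P.G i))
        (fun i => hom_of_isHomogeneous (P.hom0 i) (j • om m)) (fun i => at0_tpow _ hj) U P.p
        (fun l => rfl) (zset U) hI _ he.2 dΦ hΦ dh hh hθ1)
    rw [h5]
    have key : ∀ (θ θ' : QZ) (h : dh • θ = 0) (h' : dh • θ' = 0), θ = θ' →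
        χ.χ (KT P.p (Phi2 fun i => at0 (P.G i)) dΦ hΦ (V.disjSum U)
          (hpol (fun i => at0 (P.G i)) c a (zset U)) dh hh θ h)
        = χ.χ (KT P.p (Phi2 fun i => at0 (P.G i)) dΦ hΦ (V.disjSum U)
          (hpol (fun i => at0 (P.G i)) c a (zset U)) dh hh θ' h') := by
      rintro θ _ h h' rfl
      rfl
    exact key _ _ _ _ h3

end Pool.Agent.Helper32_OMP
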