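import Pool.Agent.Helper32_OMP.Zasm
import Pool.Agent.Helper32_OMP.Final
import Pool.Agent.Helper32_OMP.Locp
import Pool.Agent.Helper34_OMP.Leadh
import Pool.Agent.Helper37_OMP.Pole
import Pool.Agent.Helper3_OMP.Acyc
import Pool.Agent.Helper3_OMP.Brgh
import Pool.Agent.Helper3_OMP.Brg
import Pool.Agent.Helper3_OMP.Lgen
import Pool.Agent.Helper3_OMP.Minor
import Pool.Agent.Helper45_OMP.Regx
import Pool.Agent.Helper48_OMP.Hens
import Pool.Agent.Helper48_OMP.Nsatz
import Pool.Agent.Helper64_OMP.Genf
import Pool.Agent.Helper64_OMP.Gex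
import Pool.Agent.Helper64_OMP.Pat
import Pool.Agent.Helper66_OMP.Cop
import Pool.Agent.Helper66_OMP.Linf
import Pool.Agent.Helper66_OMP.Mroot
import Pool.Agent.Helper66_OMP.Root1
import Pool.Agent.Helper66_OMP.Star
import Pool.Agent.Helper84_OMP.Away
import Pool.Agent.Helper84_OMP.Ciso
import Pool.Agent.Helper8_OMP.Level
import Pool.Agent.Helper93_OMP.Broot
import Pool.Agent.Helper93_OMP.Cell
import Pool.Agent.Helper93_OMP.Cemp
import Pool.Agent.Helper93_OMP.Jy0
import Pool.Agent.Helper93_OMP.Str

/-!
# Assembly of the modules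
-/

set_option autoImplicit false

namespace Pool.Agent.Helper32_OMP

theorem cellStmt : CellStmt := H93.cell H93.str H93.cemp (H84.ciso H48.hens)

/-- the zeta function -/
theorem zasmStmt : ZasmStmt :=
  zasm (H64.pat H48.nul H3.minor) (loc0 cellStmt H37.tor) (locp cellStmt H37.tor H37.shc) H8.level
    H84.away H93.jy0 H64.genf H64.gex

theorem lgenStmt : LgenStmt := H3.lgen (H3.brg H3.brgh H3.acyc) H45.regx H48.nul H3.minor

theorem copStmt : CopStmt := H66.cop H66.zero

theorem poleStmt : PoleStmt := H37P.pole (H66.star lgenStmt) copStmt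

theorem linfStmt : LinfStmt := H66.linf lgenStmt copStmt

/-- the roots of the components -/
theorem mrootStmt : MrootStmt := H66.mroot H66.root1 H66.zero

/-- the roots of the multiple points -/
theorem brootStmt : BrootStmt := H93.broot H34.leadh poleStmt linfStmt

end Pool.Agent.Helper32_OMP
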