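import Pool.Agent.Helper32_OMP.Defs
import Pool.Agent.Helper6_Mono.Ring
import Pool.Agent.Helper6_Mono.Sup

/-!
# Functors for the jets of hypersurfaces with ordinary multiple points
-/

set_option autoImplicit false
set_option linter.unusedVariables false
set_option linter.unusedSectionVars false

namespace Pool.Agent.Helper32_OMP

open PowerSeries Finset Pool.Agent.Helper6_Mono

variable {k : Type} [Field k] {σ ι : Type} {W : Type} [AddCommGroup W]

/-! ### Series -/

/-- the series `F(γ(t), t)`; the variable `none` of `F` stands for `t` -/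
noncomputable abbrev evt {S : Type} [CommRing S] [Algebra k S] (F : MvPolynomial (Option σ) k)
    (γ : σ → S⟦X⟧) : S⟦X⟧ :=
  MvPolynomial.aeval (fun o : Option σ => o.elim (PowerSeries.X : S⟦X⟧) γ) F

/-- the polynomial `F(y, 0)` -/
noncomputable def at0 (F : MvPolynomial (Option σ) k) : MvPolynomial σ k :=
  MvPolynomial.aeval (fun o : Option σ => o.elim (0 : MvPolynomial σ k) MvPolynomial.X) F

/-- weights `θ` for the coordinates, `-ω` for the variable `t` -/
abbrev wtO (θ ω : W) : Option σ → W := fun o => o.elim (-ω) (fun _ => θ)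

theorem evt_tw {S S' : Type} [CommRing S] [Algebra k S] [CommRing S'] [Algebra k S'] {θ ω ϑ : W}
    {F : MvPolynomial (Option σ) k} (hF : MvPolynomial.IsWeightedHomogeneous (wtO θ ω) F ϑ)
    (φ : S →ₐ[k] S') (c : Chr W S') (γ : σ → S⟦X⟧) :
    evt F (fun l => C (chr c θ) * twS ω φ c (γ l)) = C (chr c ϑ) * twS ω φ c (evt F γ) := by
  have h := aeval_tw hF (twS ω φ c) (c.map (C : S' →+* S'⟦X⟧))
    (fun o : Option σ => o.elim (PowerSeries.X : S⟦X⟧) γ)
  rw [chr_map] at h
  rw [evt, evt, ← h]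
  congr 2
  funext o
  cases o with
  | some l =>
    rw [chr_map]
    rfl
  | none =>
    rw [chr_map]
    show (PowerSeries.X : S'⟦X⟧) = C (chr c (-ω)) * twS ω φ c PowerSeries.X
    have := twS_X_pow (k := k) ω φ c 1
    rw [pow_one, pow_one, one_smul] at this
    rw [this, ← mul_assoc, ← map_mul, chr_neg_mul, map_one, one_mul]

/-- families of series with coefficients in the index set `D`; the coefficient with index `j` of
the `i`-th series has weight `wt i + j ω` -/
@[reducible] noncomputable def serGF (k : Type) [Field k] {T : Type} (D : Set (T × ℕ)) (wt : T → W)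
    (ω : W) : GF k W where
  obj S _ _ := {γ : T → S⟦X⟧ // ∀ i j, (i, j) ∉ D → coeff j (γ i) = 0}
  tw φ c γ := ⟨fun i => C (chr c (wt i)) * twS ω φ c (γ.1 i), fun i j h => by
    rw [coeff_C_mul, coeff_twS, γ.2 i j h, map_zero, mul_zero, mul_zero]⟩
  tw_id γ := Subtype.ext (funext fun i => by
    show C (chr 1 (wt i)) * twS ω (AlgHom.id k _) 1 (γ.1 i) = γ.1 i
    rw [twS_id, chr_one, map_one, one_mul])
  tw_tw φ c ψ d γ := Subtype.ext (funext fun i => by
    show C (chr d (wt i)) * twS ω ψ d (C (chr c (wt i)) * twS ω φ c (γ.1 i)) = _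
    rw [map_mul, twS_C, twS_twS, ← mul_assoc, ← map_mul]
    simp)

open scoped Classical in
/-- a family of series is the family of its coefficients -/
noncomputable def serEquiv {T : Type} (D : Set (T × ℕ)) (wt : T → W) (ω : W) :
    GEquiv (serGF k D wt ω) (GF.pi k fun p : D => wt p.1.1 + p.1.2 • ω) where
  eq S _ _ :=
    { toFun := fun γ => fun p => coeff p.1.2 (γ.1 p.1.1)
      invFun := fun x => ⟨fun i => PowerSeries.mk fun j => if h : (i, j) ∈ D then x ⟨(i, j), h⟩
          else 0, fun i j h => by rw [coeff_mk, dif_neg h]⟩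
      left_inv := fun γ => by
        refine Subtype.ext (funext fun i => ?_)
        ext j
        show coeff j (PowerSeries.mk fun j => if h : (i, j) ∈ D then coeff j (γ.1 i) else 0) = _
        rw [coeff_mk]
        split_ifs with h
        · rfl
        · rw [γ.2 i j h]
      right_inv := fun x => by
        funext p
        show coeff p.1.2 (PowerSeries.mk fun j => if h : (p.1.1, j) ∈ D then x ⟨(p.1.1, j), h⟩
          else 0) = x p
        rw [coeff_mk, dif_pos p.2] }
  eq_tw {S S'} _ _ _ _ φ c γ := by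
    funext p
    show coeff p.1.2 (C (chr c (wt p.1.1)) * twS ω φ c (γ.1 p.1.1))
      = chr c (wt p.1.1 + p.1.2 • ω) * φ (coeff p.1.2 (γ.1 p.1.1))
    rw [coeff_C_mul, coeff_twS, chr_add, mul_assoc]

theorem FT.ser {T : Type} {D : Set (T × ℕ)} (hD : D.Finite) (wt : T → W) (ω : W) :
    FT (serGF k D wt ω) := by
  have : Finite D := hD
  exact FT.of_equiv (serEquiv D wt ω) (FT.pi _)

theorem times_ser {β : Type} {wβ : β → QZ} {R : Type*} [CommRing R] {L : Rˣ}
    (χ : SInv k wβ L) {X : Over k QZ β wβ} (hX : FT X.F) {T : Type} {D : Set (T × ℕ)}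
    (hD : D.Finite) (wt : T → QZ) (ω : QZ) :
    χ.χ (X.times (serGF k D wt ω)) = (L : R) ^ D.ncard * χ.χ X := by
  have : Finite D := hD
  rw [χ.iso (hX.prod (FT.ser hD wt ω)) (X.times_congr (serEquiv D wt ω)), χ.times_pi hX,
    Nat.card_coe_set_eq]

/-! ### The space of points -/

/-- affine space over itself, all coordinates having weight `θ` -/
@[reducible] def affY (k : Type) [Field k] (σ : Type) (θ : W) : Over k W σ (fun _ => θ) where
  F := GF.pi k (fun _ : σ => θ)
  pt l := ⟨fun x => x l, fun φ c x => rfl⟩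

theorem FT.affY [Finite σ] (θ : W) : FT (affY k σ θ).F := FT.pi _

/-- the point `p` -/
@[reducible] def ptP (W : Type) [AddCommGroup W] (p : σ → k) : Over k W σ (fun _ => (0 : W)) where
  F := GF.one k W
  pt l := ⟨fun {S} _ _ _ => algebraMap k S (p l), fun φ c _ => by
    rw [chr_zero, one_mul, AlgHom.commutes]⟩

/-- a homogeneous polynomial as a function -/
@[reducible] noncomputable def pfn {θ : W} (Z : Over k W σ (fun _ => θ)) (q : MvPolynomial σ k)
    {w : W} (hq : MvPolynomial.IsWeightedHomogeneous (fun _ : σ => θ) q w) : NF Z.F w :=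
  ⟨fun x => MvPolynomial.aeval (Z.base x) q, fun φ c x => by
    rw [Z.base_tw, aeval_tw hq]⟩

/-- the stratum of `Z` on which the polynomials `Φ t` are invertible for `t ∈ U` and vanish for
`t ∉ U` -/
@[reducible] noncomputable def polZ {θ : W} (Z : Over k W σ (fun _ => θ)) {Θ : Type} [Fintype Θ]
    (Φ : Θ → MvPolynomial σ k) {w : Θ → W}
    (hΦ : ∀ t, MvPolynomial.IsWeightedHomogeneous (fun _ : σ => θ) (Φ t) (w t)) (U : Finset Θ) :
    Over k W σ (fun _ => θ) :=
  Z.tor (fun t => pfn Z (Φ t) (hΦ t)) univ U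

theorem X_hom (θ : W) (l : σ) :
    MvPolynomial.IsWeightedHomogeneous (fun _ : σ => θ) (MvPolynomial.X l : MvPolynomial σ k) θ :=
  MvPolynomial.isWeightedHomogeneous_X k _ l

theorem hom_zero (q : MvPolynomial σ k) :
    MvPolynomial.IsWeightedHomogeneous (fun _ : σ => (0 : W)) q 0 :=
  fun d _ => by simp [Finsupp.weight_apply]

theorem hom_of_isHomogeneous {q : MvPolynomial σ k} {d : ℕ} (hq : q.IsHomogeneous d) (θ : W) :
    MvPolynomial.IsWeightedHomogeneous (fun _ : σ => θ) q (d • θ) := by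
  intro e he
  have h1 := hq he
  rw [Finsupp.weight_apply, Finsupp.sum] at h1 ⊢
  simp only [Pi.one_apply, smul_eq_mul, mul_one] at h1
  rw [← h1, Finset.sum_smul]

theorem at0_hom {θ ω ϑ : W} {F : MvPolynomial (Option σ) k}
    (hF : MvPolynomial.IsWeightedHomogeneous (wtO θ ω) F ϑ) :
    MvPolynomial.IsWeightedHomogeneous (fun _ : σ => θ) (at0 F) ϑ := by
  classical
  rw [at0, MvPolynomial.aeval_def, MvPolynomial.eval₂_eq]
  refine MvPolynomial.IsWeightedHomogeneous.sum _ _ _ fun e he => ?_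
  have h1 := hF (MvPolynomial.mem_support_iff.1 he)
  by_cases h0 : e none = 0
  · have h2 : Finsupp.weight (fun _ : σ => θ) e.some = ϑ := by
      rw [← h1, Finsupp.weight_apply, Finsupp.weight_apply]
      rw [Finsupp.sum_option_index (b := fun o n => n • wtO θ ω o) e (fun o => zero_smul _ _)
        (fun o m n => add_smul _ _ _), h0, zero_smul, zero_add]
      rfl
    have h3 : (algebraMap k (MvPolynomial σ k) (MvPolynomial.coeff e F)) *
        ∏ o ∈ e.support, (o.elim (0 : MvPolynomial σ k) MvPolynomial.X) ^ e o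
        = MvPolynomial.monomial e.some (MvPolynomial.coeff e F) := by
      have h4 : ∏ o ∈ e.support, (o.elim (0 : MvPolynomial σ k) MvPolynomial.X) ^ e o
          = e.some.prod fun l n => (MvPolynomial.X l : MvPolynomial σ k) ^ n := by
        have := Finsupp.prod_option_index (b := fun (o : Option σ) n =>
          (o.elim (0 : MvPolynomial σ k) MvPolynomial.X) ^ n) e (fun o => pow_zero _)
          (fun o m n => pow_add _ _ _)
        rw [h0, pow_zero, one_mul] at this
        exact this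
      rw [h4, MvPolynomial.algebraMap_eq, MvPolynomial.monomial_eq]
    rw [h3]
    exact MvPolynomial.isWeightedHomogeneous_monomial _ _ _ h2
  · have h3 : ∏ o ∈ e.support, (o.elim (0 : MvPolynomial σ k) MvPolynomial.X) ^ e o = 0 := by
      refine Finset.prod_eq_zero (i := none) (Finsupp.mem_support_iff.2 h0) ?_
      exact zero_pow h0
    rw [h3, mul_zero]
    exact MvPolynomial.isWeightedHomogeneous_zero _ _ _

/-! ### Minors -/

/-- index set for the functions `g i` and the minors of the Jacobian matrix -/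
abbrev Th (σ ι : Type) : Type := ι ⊕ (Σ I : Finset ι, (I ↪ σ))

noncomputable instance Th.fintype [Finite σ] [Finite ι] : Fintype (Th σ ι) := by
  classical
  have : Fintype σ := Fintype.ofFinite σ
  have : Fintype ι := Fintype.ofFinite ι
  exact Fintype.ofFinite _

open scoped Classical in
/-- the functions `g i` and the minors of the Jacobian matrix -/
noncomputable def PhiM (g : ι → MvPolynomial σ k) : Th σ ι → MvPolynomial σ k
  | Sum.inl i => g i
  | Sum.inr ⟨I, τ⟩ => (Matrix.of fun i i' : I => MvPolynomial.pderiv (τ i') (g i)).det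

/-- the weights of these functions -/
def wPhi (θ : W) (ϑ : ι → W) : Th σ ι → W
  | Sum.inl i => ϑ i
  | Sum.inr ⟨I, τ⟩ => ∑ i : I, (ϑ i - θ)

theorem PhiM_hom {g : ι → MvPolynomial σ k} {θ : W} {ϑ : ι → W}
    (hg : ∀ i, MvPolynomial.IsWeightedHomogeneous (fun _ : σ => θ) (g i) (ϑ i)) (t : Th σ ι) :
    MvPolynomial.IsWeightedHomogeneous (fun _ : σ => θ) (PhiM g t) (wPhi θ ϑ t) := by
  classical
  rcases t with i | ⟨I, τ⟩
  · exact hg i
  · show MvPolynomial.IsWeightedHomogeneous (fun _ : σ => θ)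
      (Matrix.of fun i i' : I => MvPolynomial.pderiv (τ i') (g i)).det (∑ i : I, (ϑ i - θ))
    rw [Matrix.det_apply']
    refine MvPolynomial.IsWeightedHomogeneous.sum _ _ _ fun s _ => ?_
    have h1 : MvPolynomial.IsWeightedHomogeneous (fun _ : σ => θ)
        (∏ i : I, MvPolynomial.pderiv (τ i) (g (s i))) (∑ i : I, (ϑ i - θ)) := by
      have h2 : ∑ i : I, (ϑ i - θ) = ∑ i : I, (ϑ (s i) - θ) :=
        (Equiv.sum_comp s fun i : I => ϑ i - θ).symm
      rw [h2]
      refine MvPolynomial.IsWeightedHomogeneous.prod _ _ _ fun i _ => ?_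
      exact MvPolynomial.IsWeightedHomogeneous.pderiv (hg (s i)) (by simp)
    have h3 : (((Equiv.Perm.sign s : ℤ) : MvPolynomial σ k))
        * ∏ i : I, (Matrix.of fun i i' : I => MvPolynomial.pderiv (τ i') (g i)) (s i) i
        = MvPolynomial.C ((Equiv.Perm.sign s : ℤ) : k)
          * ∏ i : I, MvPolynomial.pderiv (τ i) (g (s i)) := by
      rw [map_intCast]
      rfl
    rw [h3, ← zero_add (∑ i : I, (ϑ i - θ))]
    exact (MvPolynomial.isWeightedHomogeneous_C _ _).mul h1

open scoped Classical in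
/-- the set of the indices of the functions which vanish on the stratum `U` -/
noncomputable def zset [Fintype ι] (U : Finset (Th σ ι)) : Finset ι :=
  univ.filter fun i => Sum.inl i ∉ U

/-- some minor of the functions which vanish on the stratum `U` is invertible -/
def GoodP [Fintype ι] (U : Finset (Th σ ι)) : Prop :=
  ∃ τ : (zset U) ↪ σ, Sum.inr ⟨zset U, τ⟩ ∈ U

/-! ### Local problems -/

/-- A local problem: the equation `c ∏ F_i(γ(t), t) ^ a_i = t ^ M` modulo `t ^ (M + 1)` for series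
`γ(t)` whose coefficients `γ_{l,b}` have weight `θ + b ω`, together with functions `P` of `γ(0)`
which define a morphism to affine space. -/
structure LP (k : Type) [Field k] (σ ι : Type) [Fintype ι] where
  F : ι → MvPolynomial (Option σ) k
  a : ι → ℕ
  c : k
  θ : QZ
  ω : QZ
  ϑ : ι → QZ
  hF : ∀ i, MvPolynomial.IsWeightedHomogeneous (wtO θ ω) (F i) (ϑ i)
  P : σ → MvPolynomial σ k
  hP : ∀ l, MvPolynomial.IsWeightedHomogeneous (fun _ : σ => θ) (P l) 0
  M : ℕ
  hM : ∑ i, a i • ϑ i + M • ω = 0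

section LP

variable [Fintype ι] (D : LP k σ ι)

/-- the series `c ∏ F_i(γ(t), t) ^ a_i` -/
noncomputable abbrev LP.fser {S : Type} [CommRing S] [Algebra k S] (γ : σ → S⟦X⟧) : S⟦X⟧ :=
  C (algebraMap k S D.c) * ∏ i, evt (D.F i) γ ^ D.a i

theorem chr_sum {S : Type} [CommRing S] (c : Chr W S) {T : Type} (s : Finset T) (w : T → W) :
    chr c (∑ i ∈ s, w i) = ∏ i ∈ s, chr c (w i) := by
  classical
  induction s using Finset.induction_on with
  | empty => simp
  | insert a s ha ih => rw [Finset.sum_insert ha, Finset.prod_insert ha, chr_add, ih]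

theorem LP.fser_tw {S S' : Type} [CommRing S] [Algebra k S] [CommRing S'] [Algebra k S']
    (φ : S →ₐ[k] S') (c : Chr QZ S') (γ : σ → S⟦X⟧) :
    D.fser (fun l => C (chr c D.θ) * twS D.ω φ c (γ l))
      = C (chr c (∑ i, D.a i • D.ϑ i)) * twS D.ω φ c (D.fser γ) := by
  rw [LP.fser, LP.fser, map_mul, twS_C, AlgHom.commutes, map_prod, chr_sum, map_prod]
  have h1 : ∀ i, evt (D.F i) (fun l => C (chr c D.θ) * twS D.ω φ c (γ l)) ^ D.a i
      = C (chr c (D.a i • D.ϑ i)) * twS D.ω φ c (evt (D.F i) γ ^ D.a i) := by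
    intro i
    rw [evt_tw (D.hF i), mul_pow, chr_nsmul, map_pow, map_pow]
  rw [Finset.prod_congr rfl fun i _ => h1 i, Finset.prod_mul_distrib]
  ring

/-- the indices of the coefficients of `γ(t) - γ(0)` -/
def Dj (σ : Type) (M : ℕ) : Set (σ × ℕ) := {p | 1 ≤ p.2 ∧ p.2 ≤ M}

theorem Dj_finite [Finite σ] (M : ℕ) : (Dj σ M).Finite := by
  refine Set.Finite.subset (Set.Finite.prod (Set.finite_univ (α := σ)) (Set.finite_Iic M)) ?_
  rintro ⟨l, b⟩ h
  exact ⟨Set.mem_univ _, h.2⟩

/-- the jets with given point `γ(0)` -/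
@[reducible] noncomputable def LP.K [Finite σ] : Kern k QZ σ (fun _ => D.θ) σ (fun _ => 0) where
  K := serGF k (Dj σ D.M) (fun _ => D.θ) D.ω
  hK := FT.ser (Dj_finite D.M) _ _
  A := Fin (D.M + 1)
  wA j := ∑ i, D.a i • D.ϑ i + (j : ℕ) • D.ω
  r j {S} _ _ b z := coeff (j : ℕ) (D.fser fun l => C (b l) + z.1 l) - if (j : ℕ) = D.M then 1 else 0
  r_tw j {S S'} _ _ _ _ φ c b z := by
    have h1 : (fun l => C (chr c D.θ * φ (b l)) + C (chr c D.θ) * twS D.ω φ c (z.1 l))
        = fun l => C (chr c D.θ) * twS D.ω φ c (C (b l) + z.1 l) := by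
      funext l
      rw [map_add, mul_add, twS_C, map_mul]
    show coeff (j : ℕ) (D.fser fun l => C (chr c D.θ * φ (b l))
      + C (chr c D.θ) * twS D.ω φ c (z.1 l)) - (if (j : ℕ) = D.M then 1 else 0) = _
    rw [h1, D.fser_tw, coeff_C_mul, coeff_twS, map_sub, mul_sub, chr_add, mul_assoc]
    congr 1
    split_ifs with h
    · rw [map_one, mul_one, ← chr_add, h, D.hM, chr_zero]
    · rw [map_zero, mul_zero]
  Φ l {S} _ _ b z := MvPolynomial.aeval b (D.P l)
  Φ_tw l {S S'} _ _ _ _ φ c b z := aeval_tw (D.hP l) φ c b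

open scoped Classical in
/-- the points `(z, u)`, `z` in `Z`, `u ∈ 𝔸^I`, with `c ∏_{i ∉ I} F_i(z, 0) ^ a_i ∏ u_i ^ a_i = 1` -/
@[reducible] noncomputable def LP.Tor (Z : Over k QZ σ (fun _ => D.θ)) (I : Finset ι) (e : I → ℕ)
    (he : ∑ i : I, D.a i * e i = D.M) : Over k QZ σ (fun _ => 0) where
  F := (Z.F.prod (GF.pi k fun i : I => D.ϑ i + e i • D.ω)).sub
    (fun S _ _ x => algebraMap k S D.c *
      (∏ i ∈ univ \ I, MvPolynomial.aeval (Z.base x.1) (at0 (D.F i)) ^ D.a i) *
        ∏ i : I, x.2 i ^ D.a i = 1)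
    (fun {S S'} _ _ _ _ φ c x hx => by
      have h1 : ∀ i, MvPolynomial.aeval (Z.base (Z.F.tw φ c x.1)) (at0 (D.F i)) ^ D.a i
          = chr c (D.a i • D.ϑ i) * φ (MvPolynomial.aeval (Z.base x.1) (at0 (D.F i)) ^ D.a i) := by
        intro i
        rw [Z.base_tw, aeval_tw (at0_hom (D.hF i)), mul_pow, chr_nsmul, map_pow]
      have h2 : ∀ i : I, (chr c (D.ϑ i + e i • D.ω) * φ (x.2 i)) ^ D.a i
          = chr c (D.a i • (D.ϑ i + e i • D.ω)) * φ (x.2 i ^ D.a i) := by
        intro i
        rw [mul_pow, chr_nsmul, map_pow]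
      show algebraMap k S' D.c *
        (∏ i ∈ univ \ I, MvPolynomial.aeval (Z.base (Z.F.tw φ c x.1)) (at0 (D.F i)) ^ D.a i) *
          ∏ i : I, (chr c (D.ϑ i + e i • D.ω) * φ (x.2 i)) ^ D.a i = 1
      rw [Finset.prod_congr rfl fun i _ => h1 i, Finset.prod_congr rfl fun i _ => h2 i,
        Finset.prod_mul_distrib, Finset.prod_mul_distrib, ← chr_sum, ← chr_sum, ← map_prod,
        ← map_prod]
      have h3 : ∑ i ∈ univ \ I, D.a i • D.ϑ i + ∑ i : I, D.a i • (D.ϑ i + e i • D.ω) = 0 := by
        have h4 : ∑ i : I, D.a i • (D.ϑ i + e i • D.ω)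
            = ∑ i ∈ I, D.a i • D.ϑ i + D.M • D.ω := by
          rw [← he, Finset.sum_smul, ← Finset.sum_coe_sort I (fun i => D.a i • D.ϑ i),
            ← Finset.sum_add_distrib]
          refine Finset.sum_congr rfl fun i _ => ?_
          rw [smul_add, smul_smul]
        rw [h4, ← add_assoc, Finset.sum_sdiff (Finset.subset_univ I), D.hM]
      have h5 : chr c (∑ i ∈ univ \ I, D.a i • D.ϑ i)
          * chr c (∑ i : I, D.a i • (D.ϑ i + e i • D.ω)) = 1 := by
        rw [← chr_add, h3, chr_zero]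
      have h6 := congrArg φ hx
      rw [map_mul, map_mul, AlgHom.commutes, map_one] at h6
      calc _ = (chr c (∑ i ∈ univ \ I, D.a i • D.ϑ i)
          * chr c (∑ i : I, D.a i • (D.ϑ i + e i • D.ω))) * (algebraMap k S' D.c *
            φ (∏ i ∈ univ \ I, MvPolynomial.aeval (Z.base x.1) (at0 (D.F i)) ^ D.a i) *
              φ (∏ i : I, x.2 i ^ D.a i)) := by ring
        _ = 1 := by rw [h5, h6, one_mul])
  pt l := ⟨fun x => MvPolynomial.aeval (Z.base x.1.1) (D.P l), fun φ c x => by
    rw [← aeval_tw (D.hP l)]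
    show MvPolynomial.aeval (Z.base (Z.F.tw φ c x.1.1)) (D.P l) = _
    rw [Z.base_tw]⟩

open scoped Classical in
/-- on `Z` the functions `F_i(z, 0)` vanish for `i ∈ I` and are invertible for `i ∉ I`, and the
minor of the Jacobian matrix of the former with columns `τ` is invertible -/
structure IsCell (Z : Over k QZ σ (fun _ => D.θ)) (I : Finset ι) (τ : I ↪ σ) : Prop where
  zero : ∀ i ∈ I, ∀ (S : Type) [CommRing S] [Algebra k S] (z : Z.F.obj S),
    MvPolynomial.aeval (Z.base z) (at0 (D.F i)) = 0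
  unit : ∀ i, i ∉ I → ∀ (S : Type) [CommRing S] [Algebra k S] (z : Z.F.obj S),
    IsUnit (MvPolynomial.aeval (Z.base z) (at0 (D.F i)))
  det : ∀ (S : Type) [CommRing S] [Algebra k S] (z : Z.F.obj S),
    IsUnit (Matrix.of fun i i' : I =>
      MvPolynomial.aeval (Z.base z) (MvPolynomial.pderiv (τ i') (at0 (D.F i)))).det

end LP

end Pool.Agent.Helper32_OMP
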