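import Pool.Agent.Helper6_Mono.GDefs

/-!
# Hypersurfaces which have simple normal crossings after blowing up finitely many points

Public definitions used in the statement of the theorem.
-/

set_option autoImplicit false

namespace Pool.Agent.Helper32_OMP

open MvPolynomial Pool.Agent.Helper6_Mono

/-- The family `g` of polynomials has simple normal crossings at the complex point `z`: the
gradients at `z` of the members which vanish at `z` are linearly independent. -/
def SncAt {σ ι : Type} (g : ι → MvPolynomial σ ℂ) (z : σ → ℂ) : Prop :=
  LinearIndependent ℂ (fun i : {i // eval z (g i) = 0} => fun l : σ => eval z (pderiv l (g i)))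

/-- the translate `f(y + p)` -/
noncomputable def tra {k σ : Type} [Field k] (p : σ → k) (f : MvPolynomial σ k) :
    MvPolynomial σ k := aeval (fun l => X l + C (p l)) f

/-- `p` is an ordinary multiple point of the family `g`: if `g_i^*` denotes the initial form of
`g_i` at `p` (the homogeneous component of lowest degree `d i` of `g_i(y + p)`), then the family of
the initial forms has simple normal crossings at every point `z ≠ 0`, in other words the
hypersurfaces `g_i^* = 0` in the projective space of lines through `p` are smooth and cross each
other normally. (Since the gradient of the zero polynomial is zero, this condition implies that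
the component of degree `d i` is not zero.) -/
def OrdAt {σ ι : Type} (g : ι → MvPolynomial σ ℂ) (p : σ → ℂ) : Prop :=
  ∃ d : ι → ℕ, (∀ i, ∀ j < d i, homogeneousComponent j (tra p (g i)) = 0) ∧
    ∀ z : σ → ℂ, z ≠ 0 → SncAt (fun i => homogeneousComponent (d i) (tra p (g i))) z

end Pool.Agent.Helper32_OMP
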