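import Pool.Agent.Helper32_OMP.Stmts

/-!
# Module LOC0: strata away from the multiple points
-/

set_option autoImplicit false
set_option linter.unusedVariables false
set_option linter.unusedSectionVars false

namespace Pool.Agent.Helper32_OMP

open Finset Pool.Agent.Helper6_Mono

section

variable {k : Type} [Field k] {σ ι : Type} [Fintype σ] [Fintype ι]

theorem at0_rename (f : MvPolynomial σ k) : at0 (MvPolynomial.rename some f) = f := by
  rw [at0, MvPolynomial.aeval_rename]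
  exact MvPolynomial.aeval_X_left_apply f

theorem isCell (D : LP k σ ι) {Q : Type} [Fintype Q] (q : Q → MvPolynomial σ k) {wq : Q → QZ}
    (hq : ∀ t, MvPolynomial.IsWeightedHomogeneous (fun _ : σ => D.θ) (q t) (wq t)) (V : Finset Q)
    (g : ι → MvPolynomial σ k) {ϑ : ι → QZ}
    (hg : ∀ i, MvPolynomial.IsWeightedHomogeneous (fun _ : σ => D.θ) (g i) (ϑ i))
    (hgF : ∀ i, at0 (D.F i) = g i) (U : Finset (Th σ ι)) (τ : zset U ↪ σ)
    (hτ : Sum.inr ⟨zset U, τ⟩ ∈ U) : IsCell D (Zst q hq V g hg U) (zset U) τ := by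
  classical
  refine ⟨fun i hi S _ _ z => ?_, fun i hi S _ _ z => ?_, fun S _ _ z => ?_⟩
  · rw [hgF]
    have h1 : Sum.inl i ∉ U := (Finset.mem_filter.1 hi).2
    exact (z.2 (Sum.inl i) (mem_univ _)).2 h1
  · rw [hgF]
    have h1 : Sum.inl i ∈ U := by
      by_contra h
      exact hi (Finset.mem_filter.2 ⟨mem_univ _, h⟩)
    exact (z.2 (Sum.inl i) (mem_univ _)).1 h1
  · have h1 := (z.2 _ (mem_univ _)).1 hτ
    have h2 : MvPolynomial.aeval ((Zst q hq V g hg U).base z) (PhiM g (Sum.inr ⟨zset U, τ⟩))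
        = (Matrix.of fun i i' : zset U => MvPolynomial.aeval ((Zst q hq V g hg U).base z)
          (MvPolynomial.pderiv (τ i') (at0 (D.F i)))).det := by
      show MvPolynomial.aeval ((Zst q hq V g hg U).base z)
        (Matrix.of fun i i' : zset U => MvPolynomial.pderiv (τ i') (g i)).det = _
      rw [AlgHom.map_det]
      congr 1
      ext i i'
      show MvPolynomial.aeval ((Zst q hq V g hg U).base z) (MvPolynomial.pderiv (τ i') (g i)) = _
      rw [← hgF]
      rfl
    rw [← h2]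
    exact h1

/-- the base of the torus -/
@[reducible] noncomputable def YD (D : LP k σ ι) (Z : Over k QZ σ (fun _ => D.θ)) :
    Over k QZ σ (fun _ => (0 : QZ)) where
  F := Z.F
  pt l := ⟨fun x => MvPolynomial.aeval (Z.base x) (D.P l), fun φ c x => by
    rw [← aeval_tw (D.hP l), Z.base_tw]⟩

open scoped Classical in
/-- the function `c ∏_{i ∉ I} F_i(z, 0) ^ a_i` -/
@[reducible] noncomputable def hD (D : LP k σ ι) (Z : Over k QZ σ (fun _ => D.θ)) (I : Finset ι) :
    NF (YD D Z).F (∑ i ∈ univ \ I, D.a i • D.ϑ i) :=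
  ⟨fun x => algebraMap k _ D.c *
      ∏ i ∈ univ \ I, MvPolynomial.aeval (Z.base x) (at0 (D.F i)) ^ D.a i,
    fun {S S'} _ _ _ _ φ c x => by
      have h1 : ∀ i, MvPolynomial.aeval (Z.base (Z.F.tw φ c x)) (at0 (D.F i)) ^ D.a i
          = chr c (D.a i • D.ϑ i) * φ (MvPolynomial.aeval (Z.base x) (at0 (D.F i)) ^ D.a i) := by
        intro i
        rw [Z.base_tw, aeval_tw (at0_hom (D.hF i)), mul_pow, chr_nsmul, map_pow]
      rw [Finset.prod_congr rfl fun i _ => h1 i, Finset.prod_mul_distrib, ← chr_sum, ← map_prod,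
        map_mul, AlgHom.commutes]
      ring⟩

open scoped Classical in
theorem hDw (D : LP k σ ι) (I : Finset ι) (e : I → ℕ) (he : ∑ i : I, D.a i * e i = D.M) :
    ∑ i ∈ univ \ I, D.a i • D.ϑ i + ∑ i : I, D.a i • (D.ϑ i + e i • D.ω) = 0 := by
  have h4 : ∑ i : I, D.a i • (D.ϑ i + e i • D.ω)
      = ∑ i ∈ I, D.a i • D.ϑ i + D.M • D.ω := by
    rw [← he, Finset.sum_smul, ← Finset.sum_coe_sort I (fun i => D.a i • D.ϑ i),
      ← Finset.sum_add_distrib]
    refine Finset.sum_congr rfl fun i _ => ?_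
    rw [smul_add, smul_smul]
  rw [h4, ← add_assoc, Finset.sum_sdiff (Finset.subset_univ I), D.hM]

theorem tor_eq (D : LP k σ ι) (Z : Over k QZ σ (fun _ => D.θ)) (I : Finset ι) (e : I → ℕ)
    (he : ∑ i : I, D.a i * e i = D.M) :
    D.Tor Z I e he = TT (YD D Z) (hD D Z I) (fun i : I => D.a i)
      (fun i => D.ϑ i + e i • D.ω) (hDw D I e he) := rfl

end

/-! ### Weights -/

theorem om_mul {N G m : ℕ} (hm : m ≠ 0) (h : G * N = m) : N • om m = om G := by
  have hG : G ≠ 0 := by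
    rintro rfl
    rw [zero_mul] at h
    exact hm h.symm
  rw [om, om, ← AddCircle.coe_nsmul, nsmul_eq_mul]
  congr 1
  have h1 : (m : ℚ) ≠ 0 := by exact_mod_cast hm
  have h2 : (G : ℚ) ≠ 0 := by exact_mod_cast hG
  have h3 : (G : ℚ) * N = m := by exact_mod_cast h
  field_simp
  linarith

theorem gcdI_pos {I : Type} [Fintype I] [Nonempty I] {a : I → ℕ} (ha : ∀ i, 0 < a i) :
    0 < gcdI a := by
  refine Nat.pos_of_ne_zero fun h => ?_
  obtain ⟨i⟩ := ‹Nonempty I›
  have h1 := Finset.gcd_eq_zero_iff.1 h i (mem_univ _)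
  exact (ha i).ne' h1

theorem gcdI_mul {I : Type} [Fintype I] (a : I → ℕ) (i : I) : gcdI a * (a i / gcdI a) = a i :=
  Nat.mul_div_cancel' (Finset.gcd_dvd (Finset.mem_univ i))

/-- the sum of `CELL` when the classes of the tori do not depend on the exponents -/
theorem sum_cell {ι : Type} {R : Type 1} [CommRing R] {L : Rˣ} (I : Finset ι) (a : ι → ℕ)
    (M : ℕ) (C₀ : R)
    (t : (u : I → Fin (M + 1)) → ((∀ i, (u i : ℕ) < M) ∧ ∑ i : I, a i * ((u i : ℕ) + 1) = M) → R)
    (ht : ∀ u he, t u he = C₀) {dec : ∀ u : I → Fin (M + 1),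
      Decidable ((∀ i, (u i : ℕ) < M) ∧ ∑ i : I, a i * ((u i : ℕ) + 1) = M)}
    {inst : Fintype (I → Fin (M + 1))} :
    (∑ u : I → Fin (M + 1), if he : (∀ i, (u i : ℕ) < M) ∧ ∑ i : I, a i * ((u i : ℕ) + 1) = M then
      Li L ^ (∑ i : I, ((u i : ℕ) + 1)) * t u he else 0) = C₀ * sI L I a M := by
  classical
  rw [sI, Finset.mul_sum]
  refine Finset.sum_congr (by congr 1; exact Subsingleton.elim _ _) fun u _ => ?_
  by_cases he : (∀ i, (u i : ℕ) < M) ∧ ∑ i : I, a i * ((u i : ℕ) + 1) = M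
  · rw [dif_pos he, if_pos he, ht, mul_comm]
  · rw [dif_neg he, if_neg he, mul_zero]

theorem sI_empty_type {ι : Type} {R : Type 1} [CommRing R] {L : Rˣ} (I : Finset ι) (a : ι → ℕ)
    (M : ℕ) (hI : ¬ Nonempty I) (hM : M ≠ 0) : (sI L I a M : R) = 0 := by
  classical
  rw [sI]
  refine Finset.sum_eq_zero fun u _ => ?_
  rw [if_neg]
  rintro ⟨-, h⟩
  have : IsEmpty I := not_nonempty_iff.1 hI
  rw [Finset.univ_eq_empty, Finset.sum_empty] at h
  exact hM h.symm

theorem loc0 (hCell : CellStmt) (hTor : TorStmt) : Loc0Stmt := by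
  intro k _ σ ι _ _ R _ L χ f a ha c hc Q _ q V U hU
  classical
  obtain ⟨τ, hτ⟩ := hU
  obtain ⟨Z, hZ⟩ : ∃ Z : Over k QZ σ (fun _ => (0 : QZ)),
    Z = Zst q (fun t => hom_zero (q t)) V f (fun i => hom_zero (f i)) U := ⟨_, rfl⟩
  have hFT : FT Z.F := by
    rw [hZ]
    exact FT.tor (FT.tor (FT.affY 0) _ _ _) _ _ _
  have hcell : ∀ (m : ℕ) (hm : m ≠ 0), IsCell (lp0 f a c m hm) Z (zset U) τ := by
    intro m hm
    rw [hZ]
    exact isCell (lp0 f a c m hm) q _ V f _ (fun i => at0_rename (f i)) U τ hτ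
  by_cases hI : Nonempty (zset U)
  · obtain ⟨g, hg⟩ : ∃ g : ℕ, g = gcdI (fun i : zset U => a i) := ⟨_, rfl⟩
    have hg0 : 0 < g := by
      rw [hg]
      exact gcdI_pos fun i => ha i
    have hw0 : ∑ i ∈ univ \ zset U, (lp0 f a c 1 one_ne_zero).a i •
        (lp0 f a c 1 one_ne_zero).ϑ i + ∑ i : Unit, g • om g = 0 := by
      show ∑ i ∈ univ \ zset U, a i • (0 : QZ) + ∑ i : Unit, g • om g = 0
      rw [om_smul hg0.ne']
      simp
    refine ⟨((L : R) - 1) ^ (Fintype.card (zset U) - 1) *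
      χ.χ (TT (YD (lp0 f a c 1 one_ne_zero) Z) (hD (lp0 f a c 1 one_ne_zero) Z (zset U))
        (fun _ : Unit => g) (fun _ => om g) hw0), fun m hm => ?_⟩
    rw [← hZ]
    have h1 := hCell k σ ι R L χ (lp0 f a c m hm) ha hc Z hFT (zset U) τ (hcell m hm)
    refine h1.trans ?_
    refine sum_cell (zset U) a m _ (fun u he => χ.χ ((lp0 f a c m hm).Tor Z (zset U)
      (fun i => (u i : ℕ) + 1) he.2)) fun u he => ?_
    rw [tor_eq]
    have h2 := hTor k σ (fun _ => 0) R L χ (YD (lp0 f a c m hm) Z) hFT _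
      (hD (lp0 f a c m hm) Z (zset U)) (zset U) (fun i : zset U => a i) (fun i => ha i)
      (fun i => (lp0 f a c m hm).ϑ i + ((u i : ℕ) + 1) • (lp0 f a c m hm).ω)
      (hDw (lp0 f a c m hm) (zset U) (fun i => (u i : ℕ) + 1) he.2)
    refine h2.trans ?_
    congr 1
    have key : ∀ (w w' : QZ) (hw : ∑ i ∈ univ \ zset U, (lp0 f a c m hm).a i •
        (lp0 f a c m hm).ϑ i + ∑ i : Unit, gcdI (fun i : zset U => a i) • w = 0)
        (hw' : ∑ i ∈ univ \ zset U, (lp0 f a c m hm).a i •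
        (lp0 f a c m hm).ϑ i + ∑ i : Unit, g • w' = 0), w = w' →
        χ.χ (TT (YD (lp0 f a c m hm) Z) (hD (lp0 f a c m hm) Z (zset U))
          (fun _ : Unit => gcdI (fun i : zset U => a i)) (fun _ => w) hw)
        = χ.χ (TT (YD (lp0 f a c m hm) Z) (hD (lp0 f a c m hm) Z (zset U))
          (fun _ : Unit => g) (fun _ => w') hw') := by
      subst hg
      rintro w _ hw hw' rfl
      rfl
    refine (key _ (om g) _ hw0 ?_).trans rfl
    have h3 : ∑ i : zset U, (a i / gcdI (fun i : zset U => a i)) •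
        ((0 : QZ) + ((u i : ℕ) + 1) • om m)
        = (∑ i : zset U, (a i / gcdI (fun i : zset U => a i)) * ((u i : ℕ) + 1)) • om m := by
      rw [Finset.sum_smul]
      refine Finset.sum_congr rfl fun i _ => ?_
      rw [zero_add, smul_smul]
    refine h3.trans (om_mul hm ?_)
    rw [hg, Finset.mul_sum]
    refine Eq.trans (Finset.sum_congr rfl fun i _ => ?_) he.2
    rw [← mul_assoc, gcdI_mul (fun i : zset U => a i) i]
  · refine ⟨0, fun m hm => ?_⟩
    rw [← hZ]
    have h1 := hCell k σ ι R L χ (lp0 f a c m hm) ha hc Z hFT (zset U) τ (hcell m hm)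
    refine h1.trans ?_
    rw [zero_mul]
    refine Finset.sum_eq_zero fun u _ => ?_
    rw [dif_neg]
    rintro ⟨-, h⟩
    have : IsEmpty (zset U) := not_nonempty_iff.1 hI
    rw [Finset.univ_eq_empty, Finset.sum_empty] at h
    exact hm h.symm

end Pool.Agent.Helper32_OMP
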