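import Pool.Agent.Helper32_OMP.Base
import Pool.Agent.Helper6_Mono.Seq

/-!
# Module statements, part 1: the zeta function
-/

set_option autoImplicit false
set_option linter.unusedVariables false
set_option linter.unusedSectionVars false

namespace Pool.Agent.Helper32_OMP

open PowerSeries Finset Pool.Agent.Helper6_Mono

/-! ## Algebra -/

/-- MODULE HENS: Hensel's lemma in several variables -/
def HensStmt : Prop :=
  ∀ (k : Type) [Field k] (σ ι : Type) [Fintype σ] [Fintype ι] [DecidableEq ι]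
    (F : ι → MvPolynomial (Option σ) k) (τ : ι ↪ σ) (S : Type) [CommRing S] [Algebra k S]
    (y : σ → S), (∀ i, MvPolynomial.aeval y (at0 (F i)) = 0) →
    IsUnit (Matrix.of fun i i' : ι =>
      MvPolynomial.aeval y (MvPolynomial.pderiv (τ i') (at0 (F i)))).det →
    ∀ (M : ℕ) (v : ι → S⟦X⟧) (δ : σ → S⟦X⟧), (∀ i, coeff 0 (v i) = 0) →
    ∃! γ : σ → S⟦X⟧, (∀ l j, M < j → coeff j (γ l) = 0) ∧ (∀ l, coeff 0 (γ l) = y l) ∧
      (∀ l, l ∉ Set.range τ → ∀ j, 1 ≤ j → j ≤ M → coeff j (γ l) = coeff j (δ l)) ∧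
      ∀ i, ∀ j ≤ M, coeff j (evt (F i) γ) = coeff j (v i)

/-- MODULE NUL: Nullstellensatz over a subfield of the complex numbers -/
def NulStmt : Prop :=
  ∀ (k : Type) [Field k] [Algebra k ℂ] (σ : Type) [Finite σ] (E : Set (MvPolynomial σ k))
    (H : MvPolynomial σ k),
    (∀ z : σ → ℂ, (∀ e ∈ E, MvPolynomial.aeval z e = 0) → MvPolynomial.aeval z H = 0) →
    ∃ N : ℕ, H ^ N ∈ Ideal.span E

open scoped Classical in
/-- MODULE MINOR: linearly independent rows have an invertible minor -/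
def MinorStmt : Prop :=
  ∀ (K : Type) [Field K] (σ ι : Type) [Finite σ] [Fintype ι] (v : ι → σ → K),
    LinearIndependent K v → ∃ τ : ι ↪ σ, (Matrix.of fun i i' : ι => v i (τ i')).det ≠ 0

open scoped Classical in
/-- MODULE PAT: strata without invertible minor are empty -/
def PatStmt : Prop :=
  ∀ (k : Type) [Field k] [Algebra k ℂ] (σ ι Q : Type) [Fintype σ] [Fintype ι] [Fintype Q]
    (q : Q → MvPolynomial σ k) (V : Finset Q) (g : ι → MvPolynomial σ k),
    (∀ z : σ → ℂ, (∀ t ∈ V, MvPolynomial.aeval z (q t) ≠ 0) →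
      SncAt (fun i => MvPolynomial.map (algebraMap k ℂ) (g i)) z) →
    ∀ U : Finset (Th σ ι), ¬ GoodP U →
    ∀ (S : Type) [CommRing S] [Algebra k S] (y : σ → S),
      (∀ t ∈ V, IsUnit (MvPolynomial.aeval y (q t))) →
      (∀ t : Th σ ι, (t ∈ U → IsUnit (MvPolynomial.aeval y (PhiM g t))) ∧
        (t ∉ U → MvPolynomial.aeval y (PhiM g t) = 0)) → (1 : S) = 0

/-! ## Strata -/

/-- the locus where, for every `i`, the function `h i j` vanishes for `j < u i`, and `h i (u i)` is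
invertible if `u i < N` -/
@[reducible] def ords {k : Type} [Field k] {W : Type} [AddCommGroup W] {β : Type} {wβ : β → W}
    (X : Over k W β wβ) {I : Type} (N : ℕ) {wf : I → ℕ → W} (h : ∀ i j, NF X.F (wf i j))
    (u : I → Fin (N + 1)) : Over k W β wβ :=
  X.sub (fun S _ _ x => ∀ i, (∀ j < (u i : ℕ), (h i j).fn x = 0) ∧
      ((u i : ℕ) < N → IsUnit ((h i (u i)).fn x)))
    (fun φ c x hx i => ⟨fun j hj => by rw [(h i j).fn_tw, (hx i).1 j hj, map_zero, mul_zero],
      fun hi => by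
        rw [(h i (u i)).fn_tw]
        exact (chr_isUnit c _).mul (((hx i).2 hi).map φ)⟩)

open scoped Classical in
/-- MODULE STR: stratification by the orders of finitely many series -/
def StrStmt : Prop :=
  ∀ (k : Type) [Field k] (β : Type) (wβ : β → QZ) (R : Type 1) [CommRing R] (L : Rˣ)
    (χ : SInv k wβ L) (X : Over k QZ β wβ), FT X.F → ∀ (I : Type) [Fintype I] (N : ℕ)
    (wf : I → ℕ → QZ) (h : ∀ i j, NF X.F (wf i j)),
    (∀ u, FT (ords X N h u).F) ∧ χ.χ X = ∑ u : I → Fin (N + 1), χ.χ (ords X N h u)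

/-- the coefficients of index `j + 1` of `F_i(γ(t), t)` as functions on the jets -/
@[reducible] noncomputable def hco {k : Type} [Field k] {σ ι : Type} [Finite σ] [Fintype ι]
    (D : LP k σ ι) (Z : Over k QZ σ (fun _ => D.θ)) (I : Finset ι) (i : I) (j : ℕ) :
    NF (D.K.app Z).F (D.ϑ i + (j + 1) • D.ω) :=
  ⟨fun x => coeff (j + 1) (evt (D.F i) fun l => C (Z.base x.1.1 l) + x.1.2.1 l),
    fun {S S'} _ _ _ _ φ c x => by
      have h1 : (fun l => C (Z.base (Z.F.tw φ c x.1.1) l) + C (chr c D.θ) * twS D.ω φ c (x.1.2.1 l))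
          = fun l => C (chr c D.θ) * twS D.ω φ c (C (Z.base x.1.1 l) + x.1.2.1 l) := by
        funext l
        rw [Z.base_tw, map_add, mul_add, twS_C, map_mul]
      show coeff (j + 1) (evt (D.F i) fun l => C (Z.base (Z.F.tw φ c x.1.1) l)
        + C (chr c D.θ) * twS D.ω φ c (x.1.2.1 l)) = _
      rw [h1, evt_tw (D.hF i), coeff_C_mul, coeff_twS, chr_add, mul_assoc]⟩

/-- MODULE CEMP: strata of jets with the wrong orders are empty -/
def CempStmt : Prop :=
  ∀ (k : Type) [Field k] (σ ι : Type) [Fintype σ] [Fintype ι] (D : LP k σ ι), (∀ i, 0 < D.a i) →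
    D.c ≠ 0 → ∀ (Z : Over k QZ σ (fun _ => D.θ)) (I : Finset ι) (τ : I ↪ σ), IsCell D Z I τ →
    ∀ u : I → Fin (D.M + 1), ¬ ((∀ i, (u i : ℕ) < D.M) ∧ ∑ i : I, D.a i * ((u i : ℕ) + 1) = D.M) →
    ∀ (S : Type) [CommRing S] [Algebra k S] (x : (ords (D.K.app Z) D.M (hco D Z I) u).F.obj S),
      (1 : S) = 0

/-- the indices of the free coefficients -/
def Dfree {σ ι : Type} (M : ℕ) (I : Finset ι) (τ : I ↪ σ) (u : I → ℕ) : Set ((σ ⊕ I) × ℕ) :=
  {p | p.2 ≤ M ∧ ((∃ l, p.1 = Sum.inl l ∧ l ∉ Set.range τ ∧ 1 ≤ p.2) ∨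
    ∃ i, p.1 = Sum.inr i ∧ u i + 1 < p.2)}

/-- MODULE CISO: strata of jets with the right orders -/
def CisoStmt : Prop :=
  ∀ (k : Type) [Field k] (σ ι : Type) [Fintype σ] [Fintype ι] (D : LP k σ ι), (∀ i, 0 < D.a i) →
    D.c ≠ 0 → ∀ (Z : Over k QZ σ (fun _ => D.θ)) (I : Finset ι) (τ : I ↪ σ), IsCell D Z I τ →
    ∀ (u : I → Fin (D.M + 1)), (∀ i, (u i : ℕ) < D.M) →
    ∀ he : ∑ i : I, D.a i * ((u i : ℕ) + 1) = D.M,
    OIso (ords (D.K.app Z) D.M (hco D Z I) u)
      ((D.Tor Z I (fun i => (u i : ℕ) + 1) he).times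
        (serGF k (Dfree D.M I τ fun i => (u i : ℕ)) (Sum.elim (fun _ => D.θ) fun i : I => D.ϑ i)
          D.ω))

open scoped Classical in
/-- MODULE CELL: the jets over a cell -/
def CellStmt : Prop :=
  ∀ (k : Type) [Field k] (σ ι : Type) [Fintype σ] [Fintype ι] (R : Type 1) [CommRing R] (L : Rˣ)
    (χ : SInv k (fun _ : σ => (0 : QZ)) L) (D : LP k σ ι), (∀ i, 0 < D.a i) → D.c ≠ 0 →
    ∀ (Z : Over k QZ σ (fun _ => D.θ)), FT Z.F → ∀ (I : Finset ι) (τ : I ↪ σ), IsCell D Z I τ →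
    Li L ^ (Fintype.card σ * D.M) * χ.χ (D.K.app Z)
      = ∑ u : I → Fin (D.M + 1),
          if he : (∀ i, (u i : ℕ) < D.M) ∧ ∑ i : I, D.a i * ((u i : ℕ) + 1) = D.M then
            Li L ^ (∑ i : I, ((u i : ℕ) + 1)) * χ.χ (D.Tor Z I (fun i => (u i : ℕ) + 1) he.2)
          else 0

/-! ## Tori -/

/-- the points `(y, u)` with `y` in `Y`, `h(y) ∏ u_i ^ a_i = 1` -/
@[reducible] def TT {k : Type} [Field k] {W : Type} [AddCommGroup W] {β : Type} {wβ : β → W}
    (Y : Over k W β wβ) {wh : W} (h : NF Y.F wh) {I : Type} [Fintype I] (a : I → ℕ) (wt : I → W)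
    (hw : wh + ∑ i, a i • wt i = 0) : Over k W β wβ where
  F := (Y.F.prod (GF.pi k wt)).sub (fun S _ _ x => h.fn x.1 * ∏ i, x.2 i ^ a i = 1)
    (fun {S S'} _ _ _ _ φ c x hx => by
      have h2 : ∀ i : I, (chr c (wt i) * φ (x.2 i)) ^ a i = chr c (a i • wt i) * φ (x.2 i ^ a i) := by
        intro i
        rw [mul_pow, chr_nsmul, map_pow]
      have h3 : chr c wh * chr c (∑ i, a i • wt i) = 1 := by rw [← chr_add, hw, chr_zero]
      have h4 := congrArg φ hx
      rw [map_mul, map_one] at h4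
      show h.fn (Y.F.tw φ c x.1) * ∏ i, (chr c (wt i) * φ (x.2 i)) ^ a i = 1
      rw [h.fn_tw, Finset.prod_congr rfl fun i _ => h2 i, Finset.prod_mul_distrib, ← chr_sum,
        ← map_prod]
      calc _ = (chr c wh * chr c (∑ i, a i • wt i)) * (φ (h.fn x.1) * φ (∏ i, x.2 i ^ a i)) := by
            ring
        _ = 1 := by rw [h3, h4, one_mul])
  pt b := ((Y.pt b).fst (GF.pi k wt)).res

/-- the greatest common divisor of the exponents -/
def gcdI {I : Type} [Fintype I] (a : I → ℕ) : ℕ := Finset.univ.gcd a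

theorem gcdI_sum {I : Type} [Fintype I] (a : I → ℕ) {W : Type} [AddCommGroup W] (wt : I → W) {wh : W}
    (hw : wh + ∑ i, a i • wt i = 0) :
    wh + ∑ i : Unit, gcdI a • (∑ i, (a i / gcdI a) • wt i) = 0 := by
  rw [← hw, Finset.univ_unique, Finset.sum_singleton, Finset.smul_sum]
  congr 1
  refine Finset.sum_congr rfl fun i _ => ?_
  have h1 : gcdI a ∣ a i := Finset.gcd_dvd (Finset.mem_univ i)
  rw [smul_smul, Nat.mul_div_cancel' h1]

/-- MODULE TOR: reduction to one coordinate -/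
def TorStmt : Prop :=
  ∀ (k : Type) [Field k] (β : Type) (wβ : β → QZ) (R : Type 1) [CommRing R] (L : Rˣ)
    (χ : SInv k wβ L) (Y : Over k QZ β wβ), FT Y.F → ∀ (wh : QZ) (h : NF Y.F wh)
    (I : Type) [Fintype I] [Nonempty I] (a : I → ℕ), (∀ i, 0 < a i) → ∀ (wt : I → QZ)
    (hw : wh + ∑ i, a i • wt i = 0),
    χ.χ (TT Y h a wt hw) = ((L : R) - 1) ^ (Fintype.card I - 1) *
      χ.χ (TT Y h (fun _ : Unit => gcdI a) (fun _ => ∑ i, (a i / gcdI a) • wt i) (gcdI_sum a wt hw))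

/-- the points `(y, w)`: `y ∈ 𝔸^σ` such that `Φ t` is invertible for `t ∈ U` and vanishes for
`t ∉ U`, and `h(y) w ^ g = 1`; it is mapped to the point `p`. The coordinates of `y` have weight
`wy`, and `w` has weight `w0`. -/
@[reducible] noncomputable def KKf {k : Type} [Field k] {σ Θ : Type} [Fintype Θ] (W : Type)
    [AddCommGroup W] (wy w0 : W) (p : σ → k) (Φ : Θ → MvPolynomial σ k) (dΦ : Θ → ℕ)
    (hΦ : ∀ t, (Φ t).IsHomogeneous (dΦ t)) (U : Finset Θ) (h : MvPolynomial σ k) (dh : ℕ)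
    (hh : h.IsHomogeneous dh) (g : ℕ) (hw : dh • wy + g • w0 = 0) :
    Over k W σ (fun _ => (0 : W)) where
  F := ((GF.pi k (fun _ : σ => wy)).prod (GF.line k w0)).sub
    (fun S _ _ x => (∀ t, (t ∈ U → IsUnit (MvPolynomial.aeval x.1 (Φ t))) ∧
        (t ∉ U → MvPolynomial.aeval x.1 (Φ t) = 0)) ∧ MvPolynomial.aeval x.1 h * x.2 ^ g = 1)
    (fun {S S'} _ _ _ _ φ c x hx => by
      have h1 : ∀ (q : MvPolynomial σ k) (d : ℕ), q.IsHomogeneous d →
          MvPolynomial.aeval (fun l => chr c wy * φ (x.1 l)) q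
            = chr c (d • wy) * φ (MvPolynomial.aeval x.1 q) :=
        fun q d hq => aeval_tw (hom_of_isHomogeneous hq wy) φ c x.1
      show (∀ t, (t ∈ U → IsUnit (MvPolynomial.aeval (fun l => chr c wy * φ (x.1 l)) (Φ t))) ∧
        (t ∉ U → MvPolynomial.aeval (fun l => chr c wy * φ (x.1 l)) (Φ t) = 0)) ∧
          MvPolynomial.aeval (fun l => chr c wy * φ (x.1 l)) h * (chr c w0 * φ x.2) ^ g = 1
      refine ⟨fun t => ⟨fun ht => ?_, fun ht => ?_⟩, ?_⟩
      · rw [h1 _ _ (hΦ t)]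
        exact (chr_isUnit c _).mul (((hx.1 t).1 ht).map φ)
      · rw [h1 _ _ (hΦ t), (hx.1 t).2 ht, map_zero, mul_zero]
      · have h3 : chr c (dh • wy) * chr c (g • w0) = 1 := by rw [← chr_add, hw, chr_zero]
        have h4 := congrArg φ hx.2
        rw [map_mul, map_one] at h4
        rw [h1 _ _ hh, mul_pow, ← chr_nsmul, ← map_pow]
        calc _ = (chr c (dh • wy) * chr c (g • w0)) * (φ (MvPolynomial.aeval x.1 h)
              * φ (x.2 ^ g)) := by ring
          _ = 1 := by rw [h3, h4, one_mul])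
  pt l := ⟨fun {S} _ _ _ => algebraMap k S (p l), fun φ c _ => by
    rw [chr_zero, one_mul, AlgHom.commutes]⟩

/-- MODULE SHC: the class of these points depends on one invariant of the weights only -/
def ShcStmt : Prop :=
  ∀ (k : Type) [Field k] (σ Θ : Type) [Fintype σ] [Fintype Θ] (R : Type 1) [CommRing R] (L : Rˣ)
    (χ : SInv k (fun _ : σ => (0 : QZ)) L) (p : σ → k) (Φ : Θ → MvPolynomial σ k) (dΦ : Θ → ℕ)
    (hΦ : ∀ t, (Φ t).IsHomogeneous (dΦ t)) (U : Finset Θ) (h : MvPolynomial σ k) (dh : ℕ)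
    (hh : h.IsHomogeneous dh) (g : ℕ), 0 < g → (∃ l, ∃ t ∈ U, Φ t = MvPolynomial.X l) →
    ∃ c : R, ∀ (wy w0 : QZ) (hw : dh • wy + g • w0 = 0),
      (dh / Nat.gcd dh g) • wy + (g / Nat.gcd dh g) • w0 = (((1 : ℚ) / (Nat.gcd dh g) : ℚ) : QZ) →
      χ.χ (KKf QZ wy w0 p Φ dΦ hΦ U h dh hh g hw) = c

/-! ## Levels -/

section levels

variable {k : Type} [Field k] {σ ι : Type}

/-- substitution of homogeneous polynomials -/
theorem hom_subst {τ W : Type} [AddCommGroup W] {w : Option σ → ℤ} {d : ℤ}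
    {G : MvPolynomial (Option σ) k} (hG : MvPolynomial.IsWeightedHomogeneous w G d) {wt : τ → W}
    (v : W) (q : Option σ → MvPolynomial τ k)
    (hq : ∀ o, MvPolynomial.IsWeightedHomogeneous wt (q o) (w o • v)) :
    MvPolynomial.IsWeightedHomogeneous wt (MvPolynomial.aeval q G) (d • v) := by
  classical
  rw [MvPolynomial.aeval_def, MvPolynomial.eval₂_eq]
  refine MvPolynomial.IsWeightedHomogeneous.sum _ _ _ fun e he => ?_
  have h1 := hG (MvPolynomial.mem_support_iff.1 he)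
  have h2 : MvPolynomial.IsWeightedHomogeneous wt (∏ o ∈ e.support, q o ^ e o)
      (∑ o ∈ e.support, e o • (w o • v)) :=
    MvPolynomial.IsWeightedHomogeneous.prod _ _ _ fun o _ => (hq o).pow (e o)
  have h3 : ∑ o ∈ e.support, e o • (w o • v) = d • v := by
    rw [← h1, Finsupp.weight_apply, Finsupp.sum, Finset.sum_smul]
    refine Finset.sum_congr rfl fun o _ => ?_
    rw [smul_assoc]
  rw [← h3, ← zero_add (∑ o ∈ e.support, e o • (w o • v))]
  exact (MvPolynomial.isWeightedHomogeneous_C _ _).mul h2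

/-- the class `1 / m` in `ℚ / ℤ` -/
noncomputable abbrev om (m : ℕ) : QZ := ((((1 : ℚ) / m : ℚ)) : QZ)

theorem om_smul {m : ℕ} (hm : m ≠ 0) : m • om m = 0 := by
  rw [om, ← AddCircle.coe_nsmul, nsmul_eq_mul, mul_one_div_cancel (by exact_mod_cast hm)]
  exact AddCircle.coe_period 1

/-- the jets of `c ∏ f_i ^ a_i` -/
@[reducible] noncomputable def lp0 [Fintype ι] (f : ι → MvPolynomial σ k) (a : ι → ℕ) (c : k)
    (m : ℕ) (hm : m ≠ 0) : LP k σ ι where
  F i := MvPolynomial.rename some (f i)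
  a := a
  c := c
  θ := 0
  ω := om m
  ϑ _ := 0
  hF i := IsWH_rename some (fun l => rfl) (hom_zero (f i))
  P := MvPolynomial.X
  hP l := hom_zero _
  M := m
  hM := by
    rw [Finset.sum_eq_zero fun i _ => smul_zero _, zero_add, om_smul hm]

/-- the weights `-1` for `t` and `1` for the coordinates -/
abbrev wG (σ : Type) : Option σ → ℤ := fun o => o.elim (-1) (fun _ => 1)

/-- the polynomial `G(y, t ^ j)` -/
noncomputable def tpow (j : ℕ) (G : MvPolynomial (Option σ) k) : MvPolynomial (Option σ) k :=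
  MvPolynomial.aeval (fun o : Option σ => o.elim (MvPolynomial.X none ^ j)
    fun l => MvPolynomial.X (some l)) G

theorem tpow_hom {d : ℕ} {G : MvPolynomial (Option σ) k}
    (hG : MvPolynomial.IsWeightedHomogeneous (wG σ) G (d : ℤ)) (j : ℕ) (ω : QZ) :
    MvPolynomial.IsWeightedHomogeneous (wtO (j • ω) ω) (tpow j G) (d • (j • ω)) := by
  have h := hom_subst (wt := wtO (j • ω) ω) hG (j • ω)
    (fun o : Option σ => o.elim (MvPolynomial.X none ^ j) fun l => MvPolynomial.X (some l)) ?_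
  · rw [natCast_zsmul] at h
    exact h
  · intro o
    cases o with
    | none =>
      show MvPolynomial.IsWeightedHomogeneous (wtO (j • ω) ω)
        (MvPolynomial.X none ^ j : MvPolynomial (Option σ) k) ((-1 : ℤ) • (j • ω))
      have h1 := (MvPolynomial.isWeightedHomogeneous_X k (wtO (j • ω) ω) (none : Option σ)).pow j
      have h2 : j • wtO (j • ω) ω (none : Option σ) = (-1 : ℤ) • (j • ω) := by
        show j • (-ω) = _
        rw [neg_one_zsmul, smul_neg]
      rwa [h2] at h1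
    | some l =>
      show MvPolynomial.IsWeightedHomogeneous (wtO (j • ω) ω)
        (MvPolynomial.X (some l) : MvPolynomial (Option σ) k) ((1 : ℤ) • (j • ω))
      rw [one_zsmul]
      exact MvPolynomial.isWeightedHomogeneous_X k _ _

/-- The data at the ordinary multiple point `p`: `f_i(p + t y) = t ^ d_i G_i(y, t)`. -/
structure MPt (f : ι → MvPolynomial σ k) where
  p : σ → k
  d : ι → ℕ
  G : ι → MvPolynomial (Option σ) k
  eq : ∀ i, MvPolynomial.aeval (fun l => MvPolynomial.C (p l) + MvPolynomial.X none *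
    MvPolynomial.X (some l) : σ → MvPolynomial (Option σ) k) (f i)
      = MvPolynomial.X none ^ d i * G i
  hom : ∀ i, MvPolynomial.IsWeightedHomogeneous (wG σ) (G i) (d i : ℤ)
  hom0 : ∀ i, (at0 (G i)).IsHomogeneous (d i)

/-- the multiplicity at `p` -/
def MPt.ds [Fintype ι] {f : ι → MvPolynomial σ k} (P : MPt f) (a : ι → ℕ) : ℕ :=
  ∑ i, a i * P.d i

/-- the jets of order `j` at the point `p` -/
@[reducible] noncomputable def lpP [Fintype ι] {f : ι → MvPolynomial σ k} (P : MPt f) (a : ι → ℕ)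
    (c : k) (j m : ℕ) (hm : m ≠ 0) (h : j * P.ds a ≤ m) : LP k σ ι where
  F i := tpow j (P.G i)
  a := a
  c := c
  θ := j • om m
  ω := om m
  ϑ i := P.d i • (j • om m)
  hF i := tpow_hom (P.hom i) j (om m)
  P l := MvPolynomial.C (P.p l)
  hP l := MvPolynomial.isWeightedHomogeneous_C _ _
  M := m - j * P.ds a
  hM := by
    have h1 : ∑ i, a i • P.d i • (j • om m) = (j * P.ds a) • om m := by
      rw [MPt.ds, Finset.mul_sum, Finset.sum_smul]
      refine Finset.sum_congr rfl fun i _ => ?_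
      rw [smul_smul, smul_smul]
      congr 1
      ring
    rw [h1, ← add_smul, Nat.add_sub_cancel' h, om_smul hm]

/-- the stratum of the functions `q` and of the functions `g` and the minors -/
@[reducible] noncomputable def Zst {θ : QZ} [Finite σ] [Finite ι] {Q : Type} [Fintype Q]
    (q : Q → MvPolynomial σ k) {wq : Q → QZ}
    (hq : ∀ t, MvPolynomial.IsWeightedHomogeneous (fun _ : σ => θ) (q t) (wq t)) (V : Finset Q)
    (g : ι → MvPolynomial σ k) {ϑ : ι → QZ}
    (hg : ∀ i, MvPolynomial.IsWeightedHomogeneous (fun _ : σ => θ) (g i) (ϑ i))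
    (U : Finset (Th σ ι)) : Over k QZ σ (fun _ => θ) :=
  polZ (polZ (affY k σ θ) q hq V) (PhiM g) (PhiM_hom hg) U

/-- the sums of the powers of `𝕃⁻¹` -/
noncomputable def sI {R : Type*} [CommRing R] (L : Rˣ) (I : Finset ι) (a : ι → ℕ) (M : ℕ) : R := by
  classical
  exact ∑ u : I → Fin (M + 1), if (∀ i, (u i : ℕ) < M) ∧ ∑ i : I, a i * ((u i : ℕ) + 1) = M then
    Li L ^ (∑ i : I, ((u i : ℕ) + 1)) else 0

end levels

/-- MODULE LOC0: strata away from the multiple points -/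
def Loc0Stmt : Prop :=
  ∀ (k : Type) [Field k] (σ ι : Type) [Fintype σ] [Fintype ι] (R : Type 1) [CommRing R] (L : Rˣ)
    (χ : SInv k (fun _ : σ => (0 : QZ)) L) (f : ι → MvPolynomial σ k) (a : ι → ℕ),
    (∀ i, 0 < a i) → ∀ c : k, c ≠ 0 → ∀ (Q : Type) [Fintype Q] (q : Q → MvPolynomial σ k)
    (V : Finset Q) (U : Finset (Th σ ι)), GoodP U →
    ∃ C₀ : R, ∀ (m : ℕ) (hm : m ≠ 0), Li L ^ (Fintype.card σ * m) *
      χ.χ ((lp0 f a c m hm).K.app (Zst q (fun t => hom_zero (q t)) V f (fun i => hom_zero (f i)) U))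
        = C₀ * sI L (zset U) a m

/-- MODULE LOCP: strata at a multiple point -/
def LocpStmt : Prop :=
  ∀ (k : Type) [Field k] (σ ι : Type) [Fintype σ] [Fintype ι] (R : Type 1) [CommRing R] (L : Rˣ)
    (χ : SInv k (fun _ : σ => (0 : QZ)) L) (f : ι → MvPolynomial σ k) (a : ι → ℕ),
    (∀ i, 0 < a i) → ∀ c : k, c ≠ 0 → ∀ (P : MPt f), 0 < P.ds a → ∀ (V : Finset σ), V.Nonempty →
    ∀ (U : Finset (Th σ ι)), GoodP U →
    ∃ C₀ : R, ∀ (j m : ℕ) (hm : m ≠ 0) (h : j * P.ds a ≤ m), 1 ≤ j →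
      Li L ^ (Fintype.card σ * (m - j * P.ds a)) *
      χ.χ ((lpP P a c j m hm h).K.app (Zst MvPolynomial.X (X_hom (j • om m)) V
        (fun i => at0 (P.G i)) (fun i => hom_of_isHomogeneous (P.hom0 i) (j • om m)) U))
        = C₀ * sI L (zset U) a (m - j * P.ds a)

/-- MODULE LEVEL: the jets at a multiple point are stratified by their order -/
def LevelStmt : Prop :=
  ∀ (k : Type) [Field k] (σ ι : Type) [Fintype σ] [DecidableEq σ] [Fintype ι] (R : Type 1)
    [CommRing R] (L : Rˣ)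
    (χ : SInv k (fun _ : σ => (0 : QZ)) L) (f : ι → MvPolynomial σ k) (a : ι → ℕ),
    (∀ i, 0 < a i) → ∀ c : k, c ≠ 0 → ∀ (P : MPt f), 0 < P.ds a → ∀ (m : ℕ) (hm : m ≠ 0),
    Li L ^ (Fintype.card σ * m) * χ.χ ((lp0 f a c m hm).K.app (ptP QZ P.p))
      = ∑ j ∈ Finset.Icc 1 m, if h : j * P.ds a ≤ m then Li L ^ (Fintype.card σ * j) *
          (Li L ^ (Fintype.card σ * (m - j * P.ds a)) * ∑ V ∈ (univ : Finset (Finset σ)).erase ∅,
            χ.χ ((lpP P a c j m hm h).K.app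
              (polZ (affY k σ (j • om m)) MvPolynomial.X (X_hom (j • om m)) V)))
        else 0

open scoped Classical in
/-- MODULE AWAY: removing finitely many points -/
def AwayStmt : Prop :=
  ∀ (k : Type) [Field k] (σ : Type) [Fintype σ] (R : Type 1) [CommRing R] (L : Rˣ)
    (ψ : SInv k (fun _ : σ => (0 : QZ)) L) (T : Finset (σ → k)),
    ψ.χ (affY k σ (0 : QZ)) = ∑ p ∈ T, ψ.χ (ptP QZ p) +
      ∑ V ∈ (univ : Finset (Finset (T × σ))).filter (fun V => ∀ p : T, ∃ l, (p, l) ∈ V),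
        ψ.χ (polZ (affY k σ (0 : QZ)) (fun t : T × σ => MvPolynomial.X t.2
          - MvPolynomial.C ((t.1 : σ → k) t.2)) (fun t => hom_zero _) V)

/-- MODULE JY0: the jet space -/
def Jy0Stmt : Prop :=
  ∀ (k : Type) [Field k] (σ ι : Type) [Fintype σ] [Fintype ι] (R : Type 1) [CommRing R] (L : Rˣ)
    (χ : SInv k (fun _ : σ => (0 : QZ)) L) (f : ι → MvPolynomial σ k) (a : ι → ℕ) (c : k)
    (m : ℕ) (hm : m ≠ 0) (hω : m • om m = 0),
    χ.χ ((FibK k σ (om m) m hω).app (Jet (MvPolynomial.C c * ∏ i, f i ^ a i) Set.univ m (om m)))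
      = χ.χ ((lp0 f a c m hm).K.app (affY k σ (0 : QZ)))

/-- MODULE GENF: rationality of the sums -/
def GenfStmt : Prop :=
  ∀ (R : Type 1) [CommRing R] (L : Rˣ),
    (∀ (ι : Type) (I : Finset ι) (a : ι → ℕ), (∀ i, 0 < a i) →
      RP L (steps {x | ∃ i ∈ I, x = 1 / (a i : ℚ)}) (sI L I a)) ∧
    ∀ (S : Set ℚ) (n d : ℕ), 0 < d → ∀ s : ℕ → R, RP L (steps S) s →
      RP L (steps (S ∪ {(n : ℚ) / d})) (fun m => ∑ j ∈ Finset.Icc 1 m,
        if j * d ≤ m then Li L ^ (n * j) * s (m - j * d) else 0)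

/-- MODULE GEX: the polynomials `G_i` -/
def GexStmt : Prop :=
  ∀ (k : Type) [Field k] (σ : Type) (f : MvPolynomial σ k) (p : σ → k) (d : ℕ),
    (∀ j < d, MvPolynomial.homogeneousComponent j (tra p f) = 0) →
    ∃ G : MvPolynomial (Option σ) k,
      MvPolynomial.aeval (fun l => MvPolynomial.C (p l) + MvPolynomial.X none *
        MvPolynomial.X (some l) : σ → MvPolynomial (Option σ) k) f = MvPolynomial.X none ^ d * G ∧
      MvPolynomial.IsWeightedHomogeneous (wG σ) G (d : ℤ) ∧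
      at0 G = MvPolynomial.homogeneousComponent d (tra p f)

/-- MODULE ZASM: rationality of the normalized classes of the jet spaces -/
def ZasmStmt : Prop :=
  ∀ (k : Type) [Field k] [Algebra k ℂ] (σ ι : Type) [Fintype σ] [Fintype ι] (R : Type 1)
    [CommRing R] (L : Rˣ) (χ : SInv k (fun _ : σ => (0 : QZ)) L) (f : ι → MvPolynomial σ k)
    (a : ι → ℕ), (∀ i, 0 < a i) → ∀ c : k, c ≠ 0 → ∀ (T : Finset (σ → k)) (d : (σ → k) → ι → ℕ),
    (∀ z : σ → ℂ, (∀ p ∈ T, z ≠ fun l => algebraMap k ℂ (p l)) →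
      SncAt (fun i => MvPolynomial.map (algebraMap k ℂ) (f i)) z) →
    (∀ p ∈ T, (∀ i, ∀ j < d p i, MvPolynomial.homogeneousComponent j (tra p (f i)) = 0) ∧
      ∀ z : σ → ℂ, z ≠ 0 → SncAt (fun i => MvPolynomial.map (algebraMap k ℂ)
        (MvPolynomial.homogeneousComponent (d p i) (tra p (f i)))) z) →
    (∀ p ∈ T, 0 < ∑ i, a i * d p i) →
    ∃ s : ℕ → R, s 0 = 0 ∧
      RP L (steps ({x | ∃ i, x = 1 / (a i : ℚ)} ∪
        {x | ∃ p ∈ T, x = (Fintype.card σ : ℚ) / (∑ i, a i * d p i : ℕ)})) s ∧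
      ∀ (m : ℕ) (hm : m ≠ 0) (hω : m • om m = 0), s m = Li L ^ (m * Fintype.card σ) *
        χ.χ ((FibK k σ (om m) m hω).app
          (Jet (MvPolynomial.C c * ∏ i, f i ^ a i) Set.univ m (om m)))

end Pool.Agent.Helper32_OMP
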