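import Pool.Agent.Helper32_OMP.Stmts
import Pool.Agent.Helper6_Mono.Van

/-!
# Module ZASM: rationality of the normalized classes of the jet spaces
-/

set_option autoImplicit false
set_option linter.unusedVariables false
set_option linter.unusedSectionVars false

namespace Pool.Agent.Helper32_OMP

open Finset Pool.Agent.Helper6_Mono

section

variable {k : Type} [Field k] {σ ι : Type} [Fintype σ] [Fintype ι] {R : Type 1} [CommRing R]
  {L : Rˣ}

theorem zst_sum {θ : QZ} (ψ : SInv k (fun _ : σ => θ) L) {Q : Type} [Fintype Q]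
    (q : Q → MvPolynomial σ k) {wq : Q → QZ}
    (hq : ∀ t, MvPolynomial.IsWeightedHomogeneous (fun _ : σ => θ) (q t) (wq t)) (V : Finset Q)
    (g : ι → MvPolynomial σ k) {ϑ : ι → QZ}
    (hg : ∀ i, MvPolynomial.IsWeightedHomogeneous (fun _ : σ => θ) (g i) (ϑ i)) :
    ψ.χ (polZ (affY k σ θ) q hq V) = ∑ U : Finset (Th σ ι), ψ.χ (Zst q hq V g hg U) := by
  classical
  rw [ψ.torus (FT.tor (FT.affY θ) _ _ _)
    (fun t => pfn (polZ (affY k σ θ) q hq V) (PhiM g t) (PhiM_hom hg t)) univ,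
    Finset.powerset_univ]

theorem zst_bad [Algebra k ℂ] (hPat : PatStmt) {θ : QZ} (ψ : SInv k (fun _ : σ => θ) L)
    {Q : Type} [Fintype Q] (q : Q → MvPolynomial σ k) {wq : Q → QZ}
    (hq : ∀ t, MvPolynomial.IsWeightedHomogeneous (fun _ : σ => θ) (q t) (wq t)) (V : Finset Q)
    (g : ι → MvPolynomial σ k) {ϑ : ι → QZ}
    (hg : ∀ i, MvPolynomial.IsWeightedHomogeneous (fun _ : σ => θ) (g i) (ϑ i))
    (hsnc : ∀ z : σ → ℂ, (∀ t ∈ V, MvPolynomial.aeval z (q t) ≠ 0) →
      SncAt (fun i => MvPolynomial.map (algebraMap k ℂ) (g i)) z)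
    (U : Finset (Th σ ι)) (hU : ¬ GoodP U) :
    ψ.χ (Zst q hq V g hg U) = 0 := by
  classical
  refine ψ.empty (FT.tor (FT.tor (FT.affY θ) _ _ _) _ _ _) fun S _ _ x => ?_
  exact hPat k σ ι Q q V g hsnc U hU S x.1.1 (fun t ht => (x.1.2 t (mem_univ _)).1 ht)
    fun t => x.2 t (mem_univ _)

end

theorem zasm (hPat : PatStmt) (hL0 : Loc0Stmt) (hLp : LocpStmt) (hLev : LevelStmt)
    (hAw : AwayStmt) (hJ : Jy0Stmt) (hGf : GenfStmt) (hGx : GexStmt) : ZasmStmt := by
  intro k _ _ σ ι _ _ R _ L χ f a ha c hc T d hA hB hd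
  classical
  -- the points
  have hP : ∀ p : T, ∃ P : MPt f, P.d = d p ∧ P.p = p ∧
      ∀ i, at0 (P.G i) = MvPolynomial.homogeneousComponent (d p i) (tra (p : σ → k) (f i)) := by
    intro p
    have h1 := fun i => hGx k σ (f i) p (d p i) ((hB p p.2).1 i)
    choose G hG1 hG2 hG3 using h1
    refine ⟨⟨p, d p, G, hG1, hG2, fun i => ?_⟩, rfl, rfl, hG3⟩
    rw [hG3]
    exact MvPolynomial.homogeneousComponent_isHomogeneous _ _
  choose P hPd hPp hPG using hP
  have hds : ∀ p : T, (P p).ds a = ∑ i, a i * d p i := by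
    intro p
    rw [MPt.ds, hPd]
  have hds0 : ∀ p : T, 0 < (P p).ds a := by
    intro p
    rw [hds]
    exact hd p p.2
  -- removing the points
  have hAw' : ∃ F : Finset (Finset (T × σ)), (∀ V ∈ F, ∀ p : T, ∃ l, (p, l) ∈ V) ∧
      ∀ ψ : SInv k (fun _ : σ => (0 : QZ)) L,
        ψ.χ (affY k σ (0 : QZ)) = ∑ p ∈ T, ψ.χ (ptP QZ p) +
          ∑ V ∈ F, ψ.χ (polZ (affY k σ (0 : QZ)) (fun t : T × σ => MvPolynomial.X t.2
            - MvPolynomial.C ((t.1 : σ → k) t.2)) (fun t => hom_zero _) V) :=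
    ⟨_, fun V hV => (Finset.mem_filter.1 hV).2, fun ψ => hAw k σ R L ψ T⟩
  obtain ⟨F, hF, hAF⟩ := hAw'
  -- strata away from the points
  have h0 : ∀ (V : Finset (T × σ)) (U : Finset (Th σ ι)), ∃ C₀ : R, V ∈ F →
      ∀ (m : ℕ) (hm : m ≠ 0), Li L ^ (Fintype.card σ * m) *
        (χ.comp (lp0 f a c m hm).K).χ (Zst (fun t : T × σ => MvPolynomial.X t.2
            - MvPolynomial.C ((t.1 : σ → k) t.2)) (fun t => hom_zero _) V f
              (fun i => hom_zero (f i)) U)
        = C₀ * sI L (zset U) a m := by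
    intro V U
    by_cases hU : GoodP U
    · obtain ⟨C₀, h⟩ := hL0 k σ ι R L χ f a ha c hc (T × σ) (fun t : T × σ => MvPolynomial.X t.2
            - MvPolynomial.C ((t.1 : σ → k) t.2)) V U hU
      exact ⟨C₀, fun _ m hm => h m hm⟩
    · refine ⟨0, fun hV m hm => ?_⟩
      rw [zst_bad hPat (χ.comp (lp0 f a c m hm).K) _ _ V f _ ?_ U hU, mul_zero, zero_mul]
      intro z hz
      refine hA z fun p hp h => ?_
      obtain ⟨l, hl⟩ := hF V hV ⟨p, hp⟩
      refine hz _ hl ?_
      rw [map_sub, MvPolynomial.aeval_X, MvPolynomial.algHom_C, h, sub_self]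
  choose C0 hC0 using h0
  -- strata at the points
  have h1 : ∀ (p : T) (V : Finset σ) (U : Finset (Th σ ι)), ∃ C₀ : R, V ≠ ∅ →
      ∀ (j m : ℕ) (hm : m ≠ 0) (h : j * (P p).ds a ≤ m), 1 ≤ j →
        Li L ^ (Fintype.card σ * (m - j * (P p).ds a)) *
        (χ.comp (lpP (P p) a c j m hm h).K).χ (Zst MvPolynomial.X (X_hom (j • om m)) V
          (fun i => at0 ((P p).G i))
            (fun i => hom_of_isHomogeneous ((P p).hom0 i) (j • om m)) U)
          = C₀ * sI L (zset U) a (m - j * (P p).ds a) := by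
    intro p V U
    by_cases hV : V = ∅
    · exact ⟨0, fun h => absurd hV h⟩
    by_cases hU : GoodP U
    · obtain ⟨C₀, h⟩ := hLp k σ ι R L χ f a ha c hc (P p) (hds0 p) V
        (Finset.nonempty_iff_ne_empty.2 hV) U hU
      exact ⟨C₀, fun _ j m hm h' hj => h j m hm h' hj⟩
    · refine ⟨0, fun _ j m hm h' hj => ?_⟩
      rw [zst_bad hPat (χ.comp (lpP (P p) a c j m hm h').K) _ _ V (fun i => at0 ((P p).G i)) _ ?_ U
        hU, mul_zero, zero_mul]
      intro z hz
      obtain ⟨l, hl⟩ := Finset.nonempty_iff_ne_empty.2 hV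
      have h2 := (hB p p.2).2 z (fun h => hz l hl (by rw [MvPolynomial.aeval_X, h]; rfl))
      have h3 : (fun i => MvPolynomial.map (algebraMap k ℂ) (at0 ((P p).G i)))
          = fun i => MvPolynomial.map (algebraMap k ℂ)
            (MvPolynomial.homogeneousComponent (d p i) (tra (p : σ → k) (f i))) :=
        funext fun i => by rw [hPG]
      rw [h3]
      exact h2
  choose C1 hC1 using h1
  -- the sequence
  obtain ⟨w, hw⟩ : ∃ w : T → ℕ → R, w = fun p M =>
      ∑ V ∈ (univ : Finset (Finset σ)).erase ∅, ∑ U : Finset (Th σ ι),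
        C1 p V U * sI L (zset U) a M := ⟨_, rfl⟩
  obtain ⟨u, hu⟩ : ∃ u : ℕ → R, u = fun m =>
      ∑ p : T, (∑ j ∈ Finset.Icc 1 m, if j * (P p).ds a ≤ m then
        Li L ^ (Fintype.card σ * j) * w p (m - j * (P p).ds a) else 0) +
      ∑ V ∈ F, ∑ U : Finset (Th σ ι), C0 V U * sI L (zset U) a m := ⟨_, rfl⟩
  obtain ⟨S, hS⟩ : ∃ S : Set ℚ, S = {x | ∃ i, x = 1 / (a i : ℚ)} ∪
        {x | ∃ p ∈ T, x = (Fintype.card σ : ℚ) / (∑ i, a i * d p i : ℕ)} := ⟨_, rfl⟩
  have hsteps : ∀ {A B : Set ℚ}, A ⊆ B → steps A ⊆ steps B := fun h p hp => ⟨hp.1, h hp.2⟩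
  have hsI0 : ∀ I : Finset ι, RP L (steps {x | ∃ i, x = 1 / (a i : ℚ)}) (sI L I a) := by
    intro I
    refine ((hGf R L).1 ι I a ha).mono (hsteps ?_)
    rintro x ⟨i, -, h⟩
    exact ⟨i, h⟩
  have hRw : ∀ p, RP L (steps {x | ∃ i, x = 1 / (a i : ℚ)}) (w p) := by
    intro p
    rw [hw]
    exact RP.sum _ fun V _ => RP.sum _ fun U _ => RP.smul _ (hsI0 _)
  have hRu : RP L (steps S) u := by
    rw [hu]
    refine RP.add (RP.sum _ fun p _ => ?_) (RP.sum _ fun V _ => RP.sum _ fun U _ =>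
      RP.smul _ ((hsI0 _).mono (hsteps ?_)))
    · refine ((hGf R L).2 _ (Fintype.card σ) ((P p).ds a) (hds0 p) (w p) (hRw p)).mono
        (hsteps ?_)
      rw [hS]
      refine Set.union_subset_union le_rfl ?_
      rintro x rfl
      exact ⟨p, p.2, by rw [hds]⟩
    · rw [hS]
      exact Set.subset_union_left
  refine ⟨fun m => if m = 0 then 0 else u m, if_pos rfl, ?_, ?_⟩
  · rw [← hS]
    refine RP.of_shift 1 ((hRu.shift 1).congr fun m => ?_)
    rw [if_neg (Nat.succ_ne_zero m)]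
  · intro m hm hω
    show (if m = 0 then 0 else u m) = _
    rw [if_neg hm, hJ k σ ι R L χ f a c m hm hω, mul_comm m]
    have h2 := hAF (χ.comp (lp0 f a c m hm).K)
    have h3 : χ.χ ((lp0 f a c m hm).K.app (affY k σ (0 : QZ)))
        = (χ.comp (lp0 f a c m hm).K).χ (affY k σ (0 : QZ)) := rfl
    rw [h3, h2, mul_add, Finset.mul_sum, Finset.mul_sum, hu]
    show _ + _ = _
    congr 1
    · rw [← Finset.sum_coe_sort T]
      refine Finset.sum_congr rfl fun p _ => ?_
      have h4 := hLev k σ ι R L χ f a ha c hc (P p) (hds0 p) m hm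
      rw [hPp] at h4
      refine Eq.trans ?_ h4.symm
      refine Finset.sum_congr rfl fun j hj => ?_
      by_cases hjm : j * (P p).ds a ≤ m
      · rw [if_pos hjm, dif_pos hjm]
        congr 1
        rw [hw, Finset.mul_sum]
        refine Finset.sum_congr rfl fun V hV => ?_
        have h5 := zst_sum (χ.comp (lpP (P p) a c j m hm hjm).K) MvPolynomial.X
          (X_hom (j • om m)) V (fun i => at0 ((P p).G i))
            (fun i => hom_of_isHomogeneous ((P p).hom0 i) (j • om m))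
        have h6 : χ.χ ((lpP (P p) a c j m hm hjm).K.app
              (polZ (affY k σ (j • om m)) MvPolynomial.X (X_hom (j • om m)) V))
            = (χ.comp (lpP (P p) a c j m hm hjm).K).χ
              (polZ (affY k σ (j • om m)) MvPolynomial.X (X_hom (j • om m)) V) := rfl
        rw [h6, h5, Finset.mul_sum]
        refine Finset.sum_congr rfl fun U _ => ?_
        exact (hC1 p V U (Finset.mem_erase.1 hV).1 j m hm hjm (Finset.mem_Icc.1 hj).1).symm
      · rw [if_neg hjm, dif_neg hjm]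
    · refine Finset.sum_congr rfl fun V hV => ?_
      rw [zst_sum (χ.comp (lp0 f a c m hm).K) _ _ V f (fun i => hom_zero (f i)), Finset.mul_sum]
      exact Finset.sum_congr rfl fun U _ => (hC0 V U hV m hm).symm

end Pool.Agent.Helper32_OMP
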